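import Pool.Agent.Lib.MP_092512_nt.OD.FN

/-!
# Odd products, module Asm: patterns up to an even number of wrong members
-/

set_option autoImplicit false

open Finset Filter

namespace Pool.Agent.Lib.OD

open ArithmeticFunction (cardFactors)

theorem sum_par {ι : Type*} (J : Finset ι) (a b : ι → ℕ) :
    (∑ j ∈ J, a j + ∑ j ∈ J, b j) % 2 = (J.filter fun j => a j % 2 ≠ b j % 2).card % 2 := by
  classical
  induction J using Finset.induction_on with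
  | empty => simp
  | insert j J hj ih =>
    rw [sum_insert hj, sum_insert hj, filter_insert]
    split_ifs with h
    · rw [card_insert_of_notMem (fun h' => hj (mem_filter.1 h').1)]
      omega
    · omega

/-- elementary inequalities for `Y = ⌊x ^ δ⌋` -/
theorem ineqs (C A : ℕ) (hC : 1 ≤ C) (ε : ℝ) (hε : 0 < ε) (hε1 : ε ≤ 1) :
    ∃ C' : ℕ, 1 ≤ C' ∧ ∀ᶠ x : ℕ in atTop, ∃ Y : ℕ, C ≤ Y ∧ Y ^ C ≤ x ∧ ((Y : ℝ) * Real.log x) ^ C ≤ (x : ℝ) ^ ε ∧
      (x : ℝ) ^ (1 / (C' : ℝ)) ≤ Y ∧ Real.log x ^ A ≤ Y := by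
  have hCR : (1 : ℝ) ≤ C := by exact_mod_cast hC
  obtain ⟨δ, hδ⟩ : ∃ δ : ℝ, δ = ε / (2 * C) := ⟨_, rfl⟩
  have hδ0 : 0 < δ := by rw [hδ]; positivity
  have hδC : δ * C = ε / 2 := by rw [hδ]; field_simp
  obtain ⟨C', hC'⟩ := exists_nat_gt (2 / δ)
  have hC'0 : (0 : ℝ) < C' := lt_trans (by positivity) hC'
  have hC'n : 1 ≤ C' := by exact_mod_cast hC'0
  refine ⟨C', hC'n, ?_⟩
  have ht : Tendsto (fun x : ℕ => (x : ℝ)) atTop atTop := tendsto_natCast_atTop_atTop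
  have h1 : ∀ᶠ x : ℕ in atTop, (2 : ℝ) ≤ (x : ℝ) ^ (δ / 2) :=
    ((tendsto_rpow_atTop (by positivity : 0 < δ / 2)).comp ht).eventually_ge_atTop 2
  have h2 : ∀ᶠ x : ℕ in atTop, (C : ℝ) ≤ (x : ℝ) ^ (δ / 2) :=
    ((tendsto_rpow_atTop (by positivity : 0 < δ / 2)).comp ht).eventually_ge_atTop _
  have h3 : ∀ᶠ x : ℕ in atTop, Real.log x ^ A ≤ (x : ℝ) ^ (δ / 2) := by
    have h := (isLittleO_log_rpow_rpow_atTop (A : ℝ) (by positivity : 0 < δ / 2)).bound (zero_lt_one)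
    filter_upwards [ht.eventually h, eventually_ge_atTop 1] with x hx hx1
    have hx1R : (1 : ℝ) ≤ x := by exact_mod_cast hx1
    rw [one_mul, Real.norm_of_nonneg (Real.rpow_nonneg (Real.log_nonneg hx1R) _),
      Real.norm_of_nonneg (Real.rpow_nonneg (by linarith) _), Real.rpow_natCast] at hx
    exact hx
  have h4 : ∀ᶠ x : ℕ in atTop, Real.log x ≤ (x : ℝ) ^ δ := by
    have h := (isLittleO_log_rpow_atTop hδ0).bound (zero_lt_one)
    filter_upwards [ht.eventually h, eventually_ge_atTop 1] with x hx hx1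
    have hx1R : (1 : ℝ) ≤ x := by exact_mod_cast hx1
    rw [one_mul, Real.norm_of_nonneg (Real.log_nonneg hx1R),
      Real.norm_of_nonneg (Real.rpow_nonneg (by linarith) _)] at hx
    exact hx
  filter_upwards [h1, h2, h3, h4, eventually_ge_atTop 1] with x hx1 hx2 hx3 hx4 hx5
  have hx5R : (1 : ℝ) ≤ x := by exact_mod_cast hx5
  have hx0 : (0 : ℝ) < x := by linarith
  have hsq : (x : ℝ) ^ δ = (x : ℝ) ^ (δ / 2) * (x : ℝ) ^ (δ / 2) := by
    rw [← Real.rpow_add hx0]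
    congr 1
    ring
  have hY1 : (x : ℝ) ^ (δ / 2) ≤ (⌊(x : ℝ) ^ δ⌋₊ : ℝ) := by
    have := Nat.lt_floor_add_one ((x : ℝ) ^ δ)
    nlinarith
  have hY2 : (⌊(x : ℝ) ^ δ⌋₊ : ℝ) ≤ (x : ℝ) ^ δ := Nat.floor_le (Real.rpow_nonneg hx0.le _)
  have hpC : ((x : ℝ) ^ δ) ^ C = (x : ℝ) ^ (ε / 2) := by
    rw [← Real.rpow_natCast, ← Real.rpow_mul hx0.le, hδC]
  refine ⟨⌊(x : ℝ) ^ δ⌋₊, by exact_mod_cast hx2.trans hY1, ?_, ?_, ?_, hx3.trans hY1⟩
  · have h5 : ((⌊(x : ℝ) ^ δ⌋₊ : ℝ)) ^ C ≤ x := by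
      calc ((⌊(x : ℝ) ^ δ⌋₊ : ℝ)) ^ C ≤ ((x : ℝ) ^ δ) ^ C := pow_le_pow_left₀ (by positivity) hY2 _
        _ = (x : ℝ) ^ (ε / 2) := hpC
        _ ≤ (x : ℝ) ^ (1 : ℝ) := Real.rpow_le_rpow_of_exponent_le hx5R (by linarith)
        _ = x := Real.rpow_one _
    exact_mod_cast h5
  · have hL0 : 0 ≤ Real.log x := Real.log_nonneg hx5R
    rw [mul_pow]
    calc (⌊(x : ℝ) ^ δ⌋₊ : ℝ) ^ C * Real.log x ^ C ≤ ((x : ℝ) ^ δ) ^ C * ((x : ℝ) ^ δ) ^ C :=
          mul_le_mul (pow_le_pow_left₀ (by positivity) hY2 _) (pow_le_pow_left₀ hL0 hx4 _) (by positivity) (by positivity)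
      _ = (x : ℝ) ^ ε := by
          rw [hpC, ← Real.rpow_add hx0]
          congr 1
          ring
  · refine le_trans (Real.rpow_le_rpow_of_exponent_le hx5R ?_) hY1
    rw [div_le_iff₀ hC'0]
    rw [div_lt_iff₀ hδ0] at hC'
    linarith

/-- the odd case of the hand-in -/
theorem asm (k : ℕ) (h : Fin k → ℕ) (hadm : ∀ p : ℕ, p.Prime → ∃ r : ℕ, ∀ l, ¬ p ∣ r + h l)
    (J : Finset (Fin k)) (hJ : Odd J.card) (A : ℕ) (ε : ℝ) (hε : 0 < ε) :
    ∃ C : ℕ, ∃ x₀ : ℕ, ∀ x : ℕ, x₀ ≤ x → ∀ ρ : Fin k → ℕ,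
    (x : ℝ) ^ (1 - ε) ≤ (((Icc 1 x).filter fun n =>
      (Even (J.filter fun j => cardFactors (n + h j) % 2 ≠ ρ j % 2).card ∧
        (J.filter fun j => cardFactors (n + h j) % 2 ≠ ρ j % 2).card < J.card) ∧
      ∀ l, (∀ p ∈ (n + h l).primeFactors, Real.log x ^ A < p) ∧
        (∀ p ∈ (n + h l).primeFactors, (x : ℝ) ^ (1 / (C : ℝ)) < p) ∧ cardFactors (n + h l) < C).card : ℝ) := by
  classical
  have hmin : 0 < min ε 1 := lt_min hε one_pos
  obtain ⟨C, hC1, HC⟩ := odd_products k h hadm J hJ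
  obtain ⟨C', hC', H⟩ := ineqs C A hC1 (min ε 1) hmin (min_le_right _ _)
  obtain ⟨x0, hx0⟩ := eventually_atTop.1 H
  refine ⟨max C C', max x0 2, fun x hx ρ => ?_⟩
  obtain ⟨Y, h1, h2, h3, h4, h5⟩ := hx0 x ((le_max_left _ _).trans hx)
  have hx2n : 2 ≤ x := (le_max_right _ _).trans hx
  have hx2 : (2 : ℝ) ≤ x := by exact_mod_cast hx2n
  have hx1 : (1 : ℝ) ≤ x := by linarith
  have hx0' : (0 : ℝ) < x := by linarith
  have hr2 : (∑ j ∈ J, ρ j) % 2 < 2 := Nat.mod_lt _ (by norm_num)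
  refine le_trans ?_ ((HC Y x h1 h2 _ hr2).trans ?_)
  · have h6 : (x : ℝ) ^ (1 - ε) ≤ (x : ℝ) ^ (1 - min ε 1) :=
      Real.rpow_le_rpow_of_exponent_le hx1 (by linarith [min_le_left ε 1])
    refine h6.trans ?_
    rw [Real.rpow_sub hx0', Real.rpow_one]
    have hL : 0 < Real.log x := Real.log_pos (by linarith)
    have hY0 : (0 : ℝ) < Y := by exact_mod_cast (by omega : 0 < Y)
    exact div_le_div_of_nonneg_left hx0'.le (by positivity) h3
  · have h6 : ((Finset.Icc 1 x).filter fun n => (∀ l, YR Y (n + h l) ∧ cardFactors (n + h l) < C) ∧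
        (∑ i ∈ J, cardFactors (n + h i)) % 2 = (∑ j ∈ J, ρ j) % 2) ⊆ ((Icc 1 x).filter fun n =>
      (Even (J.filter fun j => cardFactors (n + h j) % 2 ≠ ρ j % 2).card ∧
        (J.filter fun j => cardFactors (n + h j) % 2 ≠ ρ j % 2).card < J.card) ∧
      ∀ l, (∀ p ∈ (n + h l).primeFactors, Real.log x ^ A < p) ∧
        (∀ p ∈ (n + h l).primeFactors, (x : ℝ) ^ (1 / ((max C C' : ℕ) : ℝ)) < p) ∧ cardFactors (n + h l) < max C C') := by
      intro n hn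
      rw [mem_filter] at hn ⊢
      obtain ⟨hn1, hn2, hn3⟩ := hn
      have hev : Even (J.filter fun j => cardFactors (n + h j) % 2 ≠ ρ j % 2).card := by
        rw [Nat.even_iff, ← sum_par J (fun j => cardFactors (n + h j)) ρ]
        omega
      refine ⟨hn1, ⟨hev, ?_⟩, fun l => ?_⟩
      · refine lt_of_le_of_ne (card_filter_le _ _) fun he => ?_
        rw [he] at hev
        exact (Nat.not_even_iff_odd.2 hJ) hev
      · obtain ⟨h7, h8⟩ := hn2 l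
        have hYp : ∀ p ∈ (n + h l).primeFactors, (Y : ℝ) < p := fun p hp => by
          exact_mod_cast h7 p (Nat.prime_of_mem_primeFactors hp) (Nat.dvd_of_mem_primeFactors hp)
        refine ⟨fun p hp => lt_of_le_of_lt h5 (hYp p hp), fun p hp => lt_of_le_of_lt (le_trans ?_ h4) (hYp p hp), lt_of_lt_of_le h8 (le_max_left _ _)⟩
        refine Real.rpow_le_rpow_of_exponent_le hx1 ?_
        refine one_div_le_one_div_of_le (by exact_mod_cast hC') ?_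
        exact_mod_cast le_max_right C C'
    exact_mod_cast card_le_card h6

end Pool.Agent.Lib.OD
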