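import Pool.Agent.Lib.MP_092512_nt.OD.Defs

/-!
# Odd products, module CB: the algebra of the cubes
-/

set_option autoImplicit false

open Finset

namespace Pool.Agent.Lib.OD

variable {ι : Type*} [DecidableEq ι]

theorem cv_congr {c : ℕ} {t t' : ι → ℕ} {S : Finset ι} (h : ∀ i ∈ S, t i = t' i) : cv c t S = cv c t' S := by
  unfold cv
  rw [Finset.sum_congr rfl h]

theorem cv_insert {c : ℕ} {t : ι → ℕ} {S : Finset ι} {j : ι} (hj : j ∉ S) : cv c t (insert j S) = cv c t S + t j := by
  unfold cv
  rw [Finset.sum_insert hj]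
  ring

/-- (L1) -/
theorem Pr_insert {I : Finset ι} {j : ι} (hj : j ∉ I) (c d : ℕ) (hcd : c ≤ d) (t : ι → ℕ) :
    Pr (insert j I) c (Function.update t j (d - c)) = Pr I c t * Pr I d t := by
  unfold Pr
  rw [Finset.prod_powerset_insert hj]
  have h0 : ∀ S ∈ I.powerset, ∀ i ∈ S, Function.update t j (d - c) i = t i := by
    intro S hS i hi
    rw [Function.update_of_ne]
    rintro rfl
    exact hj (mem_powerset.mp hS hi)
  congr 1
  · exact Finset.prod_congr rfl fun S hS => by rw [cv_congr (h0 S hS)]
  · refine Finset.prod_congr rfl fun S hS => ?_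
    have hjS : j ∉ S := fun h => hj (mem_powerset.mp hS h)
    rw [cv_insert hjS, cv_congr (h0 S hS), Function.update_self]
    congr 1
    unfold cv
    omega

/-- the product over a cube, split along one direction -/
theorem Pr_split {I : Finset ι} {i0 : ι} (hi : i0 ∈ I) (c : ℕ) (t : ι → ℕ) :
    Pr I c t = ∏ S ∈ (I.erase i0).powerset, (lam (cv c t S) * lam (cv (c + t i0) t S)) := by
  unfold Pr
  conv_lhs => rw [← Finset.insert_erase hi]
  rw [Finset.prod_powerset_insert (Finset.notMem_erase i0 I), ← Finset.prod_mul_distrib]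
  refine Finset.prod_congr rfl fun S hS => ?_
  have hjS : i0 ∉ S := fun h => Finset.notMem_erase i0 I (mem_powerset.mp hS h)
  rw [cv_insert hjS]
  congr 2
  unfold cv
  omega

/-- (L2) -/
theorem Pr_halve {I : Finset ι} {i0 : ι} (hi : i0 ∈ I) (d s : ℕ) (t : ι → ℕ) (ht : t i0 = 2 * s) :
    Pr I d t = Pr I d (Function.update t i0 s) * Pr I (d + s) (Function.update t i0 s) := by
  rw [Pr_split hi, Pr_split hi, Pr_split hi, ← Finset.prod_mul_distrib]
  refine Finset.prod_congr rfl fun S hS => ?_
  have hiS : i0 ∉ S := fun h => Finset.notMem_erase i0 I (mem_powerset.mp hS h)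
  have h0 : ∀ c : ℕ, cv c (Function.update t i0 s) S = cv c t S := by
    intro c
    refine cv_congr fun i hi' => ?_
    rw [Function.update_of_ne]
    rintro rfl
    exact hiS hi'
  rw [Function.update_self, h0, h0, h0, ht]
  have h1 : d + s + s = d + 2 * s := by ring
  rw [h1]
  have h2 := lam_sq (cv (d + s) t S)
  calc lam (cv d t S) * lam (cv (d + 2 * s) t S) =
      lam (cv d t S) * lam (cv (d + 2 * s) t S) * 1 := by ring
    _ = lam (cv d t S) * lam (cv (d + 2 * s) t S) * (lam (cv (d + s) t S) * lam (cv (d + s) t S)) := by rw [h2]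
    _ = lam (cv d t S) * lam (cv (d + s) t S) * (lam (cv (d + s) t S) * lam (cv (d + 2 * s) t S)) := by ring

theorem Pr_cases (I : Finset ι) (c : ℕ) (t : ι → ℕ) : Pr I c t = 1 ∨ Pr I c t = -1 := by
  have h := Pr_sq I c t
  have h1 : (Pr I c t - 1) * (Pr I c t + 1) = 0 := by linear_combination h
  rcases mul_eq_zero.mp h1 with h2 | h2
  · left; linarith
  · right; linarith

/-- one of the three new cubes has product `-1` -/
theorem Pr_step {I : Finset ι} {i0 j : ι} (hi : i0 ∈ I) (hj : j ∉ I) (c d d' s : ℕ) (t : ι → ℕ) (ht : t i0 = 2 * s)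
    (h1 : c ≤ d) (h2 : d ≤ d') (h3 : d + s ≤ d') (hc : Pr I c t = -1) :
    Pr (insert j I) c (Function.update t j (d - c)) = -1 ∨
    Pr (insert j I) d (Function.update (Function.update t i0 s) j (d' - d)) = -1 ∨
    Pr (insert j I) (d + s) (Function.update (Function.update t i0 s) j (d' - (d + s))) = -1 := by
  have e1 := Pr_insert hj c d h1 t
  have e2 := Pr_insert hj d d' h2 (Function.update t i0 s)
  have e3 := Pr_insert hj (d + s) d' h3 (Function.update t i0 s)
  have e4 := Pr_halve hi d s t ht
  have e5 := Pr_sq I d (Function.update t i0 s)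
  have e6 := Pr_sq I (d + s) (Function.update t i0 s)
  have e7 := Pr_sq I d' (Function.update t i0 s)
  by_contra hcon
  push Not at hcon
  obtain ⟨n1, n2, n3⟩ := hcon
  have p1 := (Pr_cases (insert j I) c (Function.update t j (d - c))).resolve_right n1
  have p2 := (Pr_cases (insert j I) d (Function.update (Function.update t i0 s) j (d' - d))).resolve_right n2
  have p3 := (Pr_cases (insert j I) (d + s) (Function.update (Function.update t i0 s) j (d' - (d + s)))).resolve_right n3
  rw [p1] at e1
  rw [p2] at e2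
  rw [p3] at e3
  rw [hc, e4] at e1
  generalize Pr I d (Function.update t i0 s) = a at *
  generalize Pr I (d + s) (Function.update t i0 s) = b at *
  generalize Pr I d' (Function.update t i0 s) = e at *
  have : (1 : ℤ) = -1 := by
    calc (1 : ℤ) = 1 * 1 * 1 := by norm_num
      _ = (-1 * (a * b)) * (a * e) * (b * e) := by rw [← e1, ← e2, ← e3]
      _ = -((a * a) * (b * b) * (e * e)) := by ring
      _ = -1 := by rw [e5, e6, e7]; norm_num
  norm_num at this

end Pool.Agent.Lib.OD
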