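import Pool.Agent.Lib.MP_092512_nt.OD.CI

/-!
# Odd products, module CE: Proposition C (existence of cubes with product `-1`)
-/

set_option autoImplicit false

open Finset

namespace Pool.Agent.Lib.OD

variable {ι : Type*} [DecidableEq ι]

theorem cube_base (j : ι) (W : ℕ) (hW : 1 ≤ W) (r : ℕ) : ∃ A Y0 : ℕ, ∀ Y : ℕ, Y0 ≤ Y → ∃ (c : ℕ) (t : ι → ℕ),
    ∃ i0 ∈ (insert j ∅ : Finset ι), Cube W Y (Y ^ A) (insert j ∅) c t ∧ Sep (insert j ∅) i0 t ∧ 2 ^ r * W ∣ t i0 ∧
      Pr (insert j ∅) c t = -1 := by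
  obtain ⟨Y0, h0⟩ := pr (2 ^ r * W) (Nat.mul_pos (by positivity) hW)
  refine ⟨4, max Y0 1, fun Y hY => ?_⟩
  obtain ⟨q1, q2, q3, p1, p2, p3, l1, l2, l3, l4, m1, m2, m3⟩ := h0 Y (le_trans (le_max_left _ _) hY)
  have hY1 : 1 ≤ Y := le_trans (le_max_right _ _) hY
  have hm23 : q2 * q3 ≡ 1 [MOD 2 ^ r * W] := by simpa using m2.mul m3
  have hle : q1 ≤ q2 * q3 := by nlinarith
  have hd : 2 ^ r * W ∣ q2 * q3 - q1 := (Nat.modEq_iff_dvd' hle).mp (m1.trans hm23.symm)
  have hcop : q1.Coprime (q2 * q3) :=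
    Nat.Coprime.mul_right ((Nat.coprime_primes p1 p2).mpr (by omega)) ((Nat.coprime_primes p1 p3).mpr (by omega))
  have hq : q2 * q3 ≤ Y ^ 4 := by
    calc q2 * q3 ≤ Y ^ 2 * Y ^ 2 := Nat.mul_le_mul (by omega) l4
      _ = Y ^ 4 := by ring
  have hq1 : q1 ≤ Y ^ 4 := by nlinarith
  have e0 : cv q1 (fun _ : ι => q2 * q3 - q1) (∅ : Finset ι) = q1 := by simp [cv]
  have e1 : cv q1 (fun _ : ι => q2 * q3 - q1) ({j} : Finset ι) = q2 * q3 := by
    simp only [cv, Finset.sum_singleton]
    omega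
  have y1 : YR Y q1 := by
    intro p hp hpd
    rw [(Nat.prime_dvd_prime_iff_eq hp p1).mp hpd]
    exact l1
  have y2 : YR Y (q2 * q3) := by
    intro p hp hpd
    rcases (hp.dvd_mul).mp hpd with h | h
    · rw [(Nat.prime_dvd_prime_iff_eq hp p2).mp h]; omega
    · rw [(Nat.prime_dvd_prime_iff_eq hp p3).mp h]; omega
  have hsub : ∀ S : Finset ι, S ⊆ insert j ∅ → S = ∅ ∨ S = {j} := by
    intro S hS
    exact Finset.subset_singleton_iff.mp hS
  refine ⟨q1, fun _ => q2 * q3 - q1, j, mem_insert_self _ _, ⟨p1.one_lt, ?_, ?_, ?_, ?_, ?_⟩, ?_, hd, ?_⟩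
  · intro i _
    exact (Dvd.intro_left _ rfl).trans hd
  · exact m1.of_dvd (Dvd.intro_left _ rfl)
  · intro S hS
    rcases hsub S hS with rfl | rfl
    · rw [e0]; exact y1
    · rw [e1]; exact y2
  · intro S hS
    rcases hsub S hS with rfl | rfl
    · rw [e0]; exact hq1
    · rw [e1]; exact hq
  · intro S hS T hT hST
    rcases hsub S hS with rfl | rfl <;> rcases hsub T hT with rfl | rfl
    · exact absurd rfl hST
    · rw [e0, e1]; exact hcop
    · rw [e0, e1]; exact hcop.symm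
    · exact absurd rfl hST
  · intro S hS T hT hST
    have h1 : (insert j ∅ : Finset ι).erase j = ∅ := by simp
    rw [h1, Finset.subset_empty] at hS hT
    exact absurd (hS.trans hT.symm) hST
  · unfold Pr
    rw [Finset.prod_powerset_insert (by simp : j ∉ (∅ : Finset ι))]
    simp only [Finset.powerset_empty, Finset.prod_singleton]
    have e1' : (insert j (∅ : Finset ι)) = {j} := rfl
    rw [e0, e1', e1, lam_prime p1, lam_mul p2.ne_zero p3.ne_zero, lam_prime p2, lam_prime p3]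
    norm_num

theorem cube_exists (I : Finset ι) : I.Nonempty → ∀ W : ℕ, 1 ≤ W →
    (∀ p : ℕ, p.Prime → p < 2 ^ (I.card + 4) → p ∣ W) → ∀ r : ℕ, ∃ A Y0 : ℕ, ∀ Y : ℕ, Y0 ≤ Y →
    ∃ (c : ℕ) (t : ι → ℕ), ∃ i0 ∈ I, Cube W Y (Y ^ A) I c t ∧ Sep I i0 t ∧ 2 ^ r * W ∣ t i0 ∧ Pr I c t = -1 := by
  induction I using Finset.induction_on with
  | empty => intro h; exact absurd rfl h.ne_empty
  | insert j I hj ih =>
    intro _ W hW hWp r
    by_cases hI : I = ∅
    · subst hI
      exact cube_base j W hW r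
    have hIn : I.Nonempty := Finset.nonempty_iff_ne_empty.mpr hI
    have hcard : (insert j I).card = I.card + 1 := Finset.card_insert_of_notMem hj
    rw [hcard] at hWp
    obtain ⟨A1, Y1, h1⟩ := ih hIn W hW (fun p hp hlt => hWp p hp (lt_of_lt_of_le hlt
      (Nat.pow_le_pow_right (by norm_num) (by omega)))) (r + 1)
    have hWp' : ∀ p : ℕ, p.Prime → p < 2 * 2 ^ (I.card + 2) → p ∣ W := fun p hp hlt =>
      hWp p hp (lt_of_lt_of_le hlt (by
        rw [← pow_succ']
        exact Nat.pow_le_pow_right (by norm_num) (by omega)))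
    obtain ⟨C1, Y2, h2⟩ := ex (2 ^ (I.card + 2)) (A1 + 1) W Nat.one_le_two_pow hW hWp'
    obtain ⟨C2, Y3, h3⟩ := ex (2 ^ (I.card + 2)) (C1 + A1 + 1) W Nat.one_le_two_pow hW hWp'
    refine ⟨C2 + C1 + A1, Y1 + Y2 + Y3 + 3, fun Y hY => ?_⟩
    obtain ⟨c, t, i0, hi0, hcube, hsep, hdvd, hPr⟩ := h1 Y (by omega)
    have hY3 : 3 ≤ Y := by omega
    obtain ⟨k, hk⟩ := hdvd
    obtain ⟨s, hs⟩ : ∃ s, s = 2 ^ r * W * k := ⟨_, rfl⟩
    have hts : t i0 = 2 * s := by rw [hk, hs]; ring
    have hsW : W ∣ s := ⟨2 ^ r * k, by rw [hs]; ring⟩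
    have hs0 : 0 < s := by
      by_contra h0
      have h0' : s = 0 := by omega
      have h4 := hcube.cop ∅ (Finset.empty_subset _) {i0} (by simpa using hi0) (Finset.singleton_ne_empty i0).symm
      simp only [cv, Finset.sum_empty, Finset.sum_singleton, hts, h0', mul_zero, add_zero] at h4
      have h5 := (Nat.coprime_self c).mp h4
      have h6 := hcube.one_lt
      omega
    have hcI : c + ∑ i ∈ I, t i ≤ Y ^ A1 := hcube.le I (Finset.Subset.refl _)
    have hc1 := hcube.one_lt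
    -- offsets
    obtain ⟨O, hO⟩ : ∃ O : Finset ℕ, O = ((I.erase i0).powerset ×ˢ ({0, s, 2 * s} : Finset ℕ)).image
      (fun x => (∑ i ∈ x.1, t i) + x.2) := ⟨_, rfl⟩
    have hcard3 : ({0, s, 2 * s} : Finset ℕ).card ≤ 3 := Finset.card_le_three
    have hOc : O.card ≤ 2 ^ I.card * 3 := by
      rw [hO]
      refine Finset.card_image_le.trans ?_
      rw [Finset.card_product, Finset.card_powerset]
      exact Nat.mul_le_mul (Nat.pow_le_pow_right (by norm_num) (Finset.card_le_card (Finset.erase_subset _ _))) hcard3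
    have hmem : ∀ S ⊆ I.erase i0, ∀ a : ℕ, a = 0 ∨ a = s ∨ a = 2 * s → (∑ i ∈ S, t i) + a ∈ O := by
      intro S hS a ha
      rw [hO, mem_image]
      refine ⟨(S, a), mem_product.mpr ⟨mem_powerset.mpr hS, ?_⟩, rfl⟩
      simp only [mem_insert, mem_singleton]
      exact ha
    have hOprop : ∀ o ∈ O, W ∣ o ∧ o ≤ Y ^ A1 := by
      intro o ho
      rw [hO, mem_image] at ho
      obtain ⟨⟨S, a⟩, hSa, rfl⟩ := ho
      rw [mem_product, mem_powerset] at hSa
      obtain ⟨hS, ha⟩ := hSa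
      simp only [mem_insert, mem_singleton] at ha
      have h5 : (∑ i ∈ S, t i) + t i0 ≤ ∑ i ∈ I, t i := by
        rw [← Finset.sum_erase_add I t hi0]
        exact Nat.add_le_add_right (Finset.sum_le_sum_of_subset hS) _
      refine ⟨Dvd.dvd.add (Finset.dvd_sum fun i hi => hcube.wt i (Finset.mem_of_mem_erase (hS hi))) ?_, ?_⟩
      · rcases ha with h | h | h
        · rw [h]; exact dvd_zero _
        · rw [h]; exact hsW
        · rw [h]; exact Dvd.dvd.mul_left hsW 2
      · simp only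
        rcases ha with h | h | h <;> omega
    -- sums over `S ⊆ I` are offsets
    have mt : ∀ S ⊆ I, ∑ i ∈ S, t i ∈ O := by
      intro S hS
      have h5 := sum_update_eq (i0 := i0) t (t i0) S
      rw [Function.update_eq_self] at h5
      rw [h5]
      refine hmem _ (Finset.erase_subset_erase i0 hS) _ ?_
      by_cases h6 : i0 ∈ S
      · rw [if_pos h6]; omega
      · rw [if_neg h6]; omega
    have mt' : ∀ S ⊆ I, ∑ i ∈ S, Function.update t i0 s i ∈ O := by
      intro S hS
      rw [sum_update_eq]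
      refine hmem _ (Finset.erase_subset_erase i0 hS) _ ?_
      by_cases h6 : i0 ∈ S
      · rw [if_pos h6]; omega
      · rw [if_neg h6]; omega
    have ms' : ∀ S ⊆ I, s + ∑ i ∈ S, Function.update t i0 s i ∈ O := by
      intro S hS
      rw [sum_update_eq]
      have h5 : s + ((∑ i ∈ S.erase i0, t i) + if i0 ∈ S then s else 0) =
          (∑ i ∈ S.erase i0, t i) + (s + if i0 ∈ S then s else 0) := by ring
      rw [h5]
      refine hmem _ (Finset.erase_subset_erase i0 hS) _ ?_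
      by_cases h6 : i0 ∈ S
      · rw [if_pos h6]; omega
      · rw [if_neg h6]; omega
    have net : ∀ S ⊆ I, ∀ T ⊆ I, S ≠ T → ∑ i ∈ S, t i ≠ ∑ i ∈ T, t i := by
      intro S hS T hT hST
      have h5 := sum_ne hsep (u := t i0) (by omega) le_rfl hS hT hST
      rwa [Function.update_eq_self] at h5
    have net' : ∀ S ⊆ I, ∀ T ⊆ I, S ≠ T → ∑ i ∈ S, Function.update t i0 s i ≠ ∑ i ∈ T, Function.update t i0 s i :=
      fun S hS T hT hST => sum_ne hsep hs0 (by omega) hS hT hST
    -- first application of EX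
    obtain ⟨E, hE⟩ : ∃ E : Finset ℕ, E = I.powerset.image (cv c t) := ⟨_, rfl⟩
    have hEc : E.card ≤ 2 ^ I.card := by
      rw [hE]
      refine Finset.card_image_le.trans ?_
      rw [Finset.card_powerset]
    have hEm : ∀ S ⊆ I, cv c t S ∈ E := fun S hS => by
      rw [hE]; exact mem_image_of_mem _ (mem_powerset.mpr hS)
    have hEprop : ∀ e ∈ E, 0 < e ∧ e ≤ Y ^ A1 ∧ YR Y e := by
      intro e he
      rw [hE, mem_image] at he
      obtain ⟨S, hS, rfl⟩ := he
      have hS' := mem_powerset.mp hS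
      exact ⟨by unfold cv; omega, hcube.le S hS', hcube.yr S hS'⟩
    have h2n : 2 ^ (I.card + 2) = 2 ^ I.card * 4 := by rw [pow_add]; norm_num
    have hYpos : 0 < Y := by omega
    have hpow : ∀ a b : ℕ, a ≤ b → Y ^ a ≤ Y ^ b := fun a b h => Nat.pow_le_pow_right hYpos h
    obtain ⟨d, d1, d2, d3, d4, d5, d6⟩ := h2 Y (by omega) O E (by omega) (by omega)
      (fun o ho => ⟨(hOprop o ho).1, (hOprop o ho).2.trans (hpow _ _ (by omega))⟩)
      (fun e he => ⟨(hEprop e he).1, (hEprop e he).2.1.trans (hpow _ _ (by omega)), (hEprop e he).2.2⟩)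
    obtain ⟨E2, hE2⟩ : ∃ E2 : Finset ℕ, E2 = E ∪ O.image (fun o => d + o) := ⟨_, rfl⟩
    have hE2c : E2.card ≤ 2 ^ (I.card + 2) := by
      rw [hE2]
      refine (Finset.card_union_le _ _).trans ?_
      have := Finset.card_image_le (s := O) (f := fun o => d + o)
      omega
    have hdA : Y ^ (A1 + 1) < Y ^ C1 := lt_of_lt_of_le d1 d2
    have hE2prop : ∀ e ∈ E2, 0 < e ∧ e ≤ Y ^ (C1 + A1 + 1) ∧ YR Y e := by
      intro e he
      rw [hE2, mem_union] at he
      rcases he with he | he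
      · exact ⟨(hEprop e he).1, (hEprop e he).2.1.trans (hpow _ _ (by omega)), (hEprop e he).2.2⟩
      · rw [mem_image] at he
        obtain ⟨o, ho, rfl⟩ := he
        exact ⟨by omega, (d4 o ho).2.trans (hpow _ _ (by omega)), (d4 o ho).1⟩
    obtain ⟨d', e1, e2, e3, e4, e5, e6⟩ := h3 Y (by omega) O E2 (by omega) hE2c
      (fun o ho => ⟨(hOprop o ho).1, (hOprop o ho).2.trans (hpow _ _ (by omega))⟩) hE2prop
    have hmE2 : ∀ o ∈ O, d + o ∈ E2 := fun o ho => by
      rw [hE2]; exact mem_union_right _ (mem_image_of_mem _ ho)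
    -- sizes
    have hA1p : 1 ≤ Y ^ A1 := Nat.one_le_pow _ _ hYpos
    have hC1p : 1 ≤ Y ^ C1 := Nat.one_le_pow _ _ hYpos
    have hb1 : 3 * Y ^ A1 ≤ Y ^ (A1 + 1) := by rw [pow_succ, mul_comm]; exact Nat.mul_le_mul_left _ hY3
    have hb2 : 3 * (Y ^ C1 * Y ^ A1) ≤ Y ^ (C1 + A1 + 1) := by
      rw [pow_succ, pow_add, mul_comm]; exact Nat.mul_le_mul_left _ hY3
    have hb3 : Y ^ C1 ≤ Y ^ C1 * Y ^ A1 := Nat.le_mul_of_pos_right _ hA1p
    have hb4 : Y ^ A1 ≤ Y ^ C1 * Y ^ A1 := Nat.le_mul_of_pos_left _ hC1p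
    have hsO : s ∈ O := by
      have := hmem ∅ (Finset.empty_subset _) s (Or.inr (Or.inl rfl))
      simpa using this
    have hds := (d4 s hsO).2
    have hcd : c ≤ d := by omega
    have hdd' : d ≤ d' := by omega
    have hdsd' : d + s ≤ d' := by omega
    have hsum' : ∑ i ∈ I, Function.update t i0 s i ≤ ∑ i ∈ I, t i := by
      refine Finset.sum_le_sum fun i _ => ?_
      by_cases h5 : i = i0
      · rw [h5, Function.update_self]; omega
      · rw [Function.update_of_ne h5]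
    have hD1 : Y ^ A1 ≤ Y ^ (C2 + C1 + A1) := hpow _ _ (by omega)
    have hD2 : Y ^ C1 ≤ Y ^ (C2 + C1 + A1) := hpow _ _ (by omega)
    have hD3 : Y ^ C2 ≤ Y ^ (C2 + C1 + A1) := hpow _ _ (by omega)
    have hij : i0 ≠ j := by rintro rfl; exact hj hi0
    have hcv : ∀ (x : ℕ) (u : ι → ℕ) (S : Finset ι), cv x u S = x + ∑ i ∈ S, u i := fun _ _ _ => rfl
    have hwt' : ∀ i ∈ I, W ∣ Function.update t i0 s i := by
      intro i hi
      by_cases h5 : i = i0
      · rw [h5, Function.update_self]; exact hsW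
      · rw [Function.update_of_ne h5]; exact hcube.wt i hi
    have hds1 : d + s ≡ 1 [MOD W] := by
      have h5 : s ≡ 0 [MOD W] := (Nat.modEq_zero_iff_dvd).mpr hsW
      simpa using d3.add h5
    rcases Pr_step hi0 hj c d d' s t hts hcd hdd' hdsd' hPr with hA | hB | hB'
    · refine ⟨c, Function.update t j (d - c), i0, mem_insert_of_mem hi0, ?_, ?_, ?_, hA⟩
      · refine cube_mk hj hc1 hcd hcube.w1 d3 t hcube.wt ?_ ?_ hcube.cop ?_ ?_
        · exact fun S hS => ⟨hcube.yr S hS, (hcube.le S hS).trans hD1⟩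
        · intro S hS
          rw [hcv]
          exact ⟨(d4 _ (mt S hS)).1, (d4 _ (mt S hS)).2.trans hD2⟩
        · intro S hS T hT hST
          rw [hcv, hcv]
          exact d5 _ (mt S hS) _ (mt T hT) (net S hS T hT hST)
        · intro S hS T hT
          rw [hcv d]
          exact (d6 _ (mt T hT) _ (hEm S hS)).symm
      · exact sep_mk hi0 hj hsep (by omega)
      · rw [Function.update_of_ne hij, hk]
        exact ⟨2 * k, by ring⟩
    · refine ⟨d, Function.update (Function.update t i0 s) j (d' - d), i0, mem_insert_of_mem hi0, ?_, ?_, ?_, hB⟩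
      · refine cube_mk hj (by omega) hdd' d3 e3 _ hwt' ?_ ?_ ?_ ?_ ?_
        · intro S hS
          rw [hcv]
          exact ⟨(d4 _ (mt' S hS)).1, (d4 _ (mt' S hS)).2.trans hD2⟩
        · intro S hS
          rw [hcv]
          exact ⟨(e4 _ (mt' S hS)).1, (e4 _ (mt' S hS)).2.trans hD3⟩
        · intro S hS T hT hST
          rw [hcv, hcv]
          exact d5 _ (mt' S hS) _ (mt' T hT) (net' S hS T hT hST)
        · intro S hS T hT hST
          rw [hcv, hcv]
          exact e5 _ (mt' S hS) _ (mt' T hT) (net' S hS T hT hST)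
        · intro S hS T hT
          rw [hcv, hcv]
          exact (e6 _ (mt' T hT) _ (hmE2 _ (mt' S hS))).symm
      · exact sep_mk hi0 hj (sep_halve hsep (by omega)) (by omega)
      · rw [Function.update_of_ne hij, Function.update_self, hs]
        exact ⟨k, rfl⟩
    · refine ⟨d + s, Function.update (Function.update t i0 s) j (d' - (d + s)), i0, mem_insert_of_mem hi0, ?_, ?_, ?_, hB'⟩
      · refine cube_mk hj (by omega) hdsd' hds1 e3 _ hwt' ?_ ?_ ?_ ?_ ?_
        · intro S hS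
          rw [hcv, add_assoc]
          exact ⟨(d4 _ (ms' S hS)).1, (d4 _ (ms' S hS)).2.trans hD2⟩
        · intro S hS
          rw [hcv]
          exact ⟨(e4 _ (mt' S hS)).1, (e4 _ (mt' S hS)).2.trans hD3⟩
        · intro S hS T hT hST
          rw [hcv, hcv, add_assoc, add_assoc]
          have h5 := net' S hS T hT hST
          exact d5 _ (ms' S hS) _ (ms' T hT) (by omega)
        · intro S hS T hT hST
          rw [hcv, hcv]
          exact e5 _ (mt' S hS) _ (mt' T hT) (net' S hS T hT hST)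
        · intro S hS T hT
          rw [hcv, hcv, add_assoc]
          exact (e6 _ (mt' T hT) _ (hmE2 _ (ms' S hS))).symm
      · exact sep_mk hi0 hj (sep_halve hsep (by omega)) (by omega)
      · rw [Function.update_of_ne hij, Function.update_self, hs]
        exact ⟨k, rfl⟩

end Pool.Agent.Lib.OD
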