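import Pool.Agent.Lib.MP_7b7e48_nt.TC.FLM
import Pool.Agent.Lib.MP_7b7e48_nt.OW.LFC
import Pool.Agent.Lib.Sieve.Mertens

/-!
# Odd products, module SL: a lower sieve for integers which avoid at most `J` classes modulo every prime `p`, `2 J ≤ p ≤ z`
-/

set_option autoImplicit false

open Finset

namespace Pool.Agent.Lib.OD

theorem dens (J : ℕ) : ∃ m : ℝ, 1 ≤ m ∧ ∀ z : ℕ, 2 ≤ z → ∀ P : Finset ℕ, (∀ p ∈ P, p.Prime ∧ 2 * J ≤ p ∧ p ≤ z) →
    ∀ g : ℕ → ℝ, (∀ p ∈ P, g p ≤ (J : ℝ) / p) → 1 ≤ (m * Real.log z) ^ (2 * J) * ∏ p ∈ P, (1 - g p) := by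
  obtain ⟨Cm, hCm, hM⟩ := Pool.Agent.Lib.Sieve.mertens_product_upper
  refine ⟨max Cm 1, le_max_right _ _, fun z hz P hP g hg => ?_⟩
  have hlog : 0 < Real.log z := Real.log_pos (by exact_mod_cast (by omega : 1 < z))
  set A := (Finset.Icc 1 z).filter Nat.Prime with hA
  have hPA : P ⊆ A := by
    intro p hp
    obtain ⟨h1, h2, h3⟩ := hP p hp
    exact mem_filter.mpr ⟨mem_Icc.mpr ⟨h1.one_lt.le, h3⟩, h1⟩
  have hp1 : ∀ p ∈ A, (0 : ℝ) < 1 - 1 / p ∧ 1 - 1 / (p : ℝ) ≤ 1 := by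
    intro p hp
    have h1 : 2 ≤ p := (mem_filter.mp hp).2.two_le
    have h2 : (2 : ℝ) ≤ p := by exact_mod_cast h1
    have h3 : 1 / (p : ℝ) ≤ 1 / 2 := one_div_le_one_div_of_le (by norm_num) h2
    have h4 : 0 < 1 / (p : ℝ) := by positivity
    constructor <;> linarith
  have h1 : ∏ p ∈ P, (1 - 1 / (p : ℝ)) ^ (2 * J) ≤ ∏ p ∈ P, (1 - g p) := by
    refine Finset.prod_le_prod (fun p hp => pow_nonneg (hp1 p (hPA hp)).1.le _) fun p hp => ?_
    obtain ⟨h1, h2, h3⟩ := hP p hp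
    have hpR : (2 : ℝ) ≤ p := by exact_mod_cast h1.two_le
    have h4 : (2 * J : ℝ) ≤ p := by exact_mod_cast h2
    have h5 : 1 - 1 / (p : ℝ) ≤ Real.exp (-(1 / p)) := by
      have := Real.add_one_le_exp (-(1 / (p : ℝ)))
      linarith
    have h6 : (1 - 1 / (p : ℝ)) ^ (2 * J) ≤ Real.exp (-(2 * (J / p))) := by
      calc (1 - 1 / (p : ℝ)) ^ (2 * J) ≤ Real.exp (-(1 / p)) ^ (2 * J) :=
            pow_le_pow_left₀ (hp1 p (hPA hp)).1.le h5 _
        _ = Real.exp (-(2 * (J / p))) := by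
            rw [← Real.exp_nat_mul]
            congr 1
            push_cast
            ring
    have h7 : (0 : ℝ) ≤ (J : ℝ) / p := by positivity
    have h8 : (J : ℝ) / p ≤ 1 / 2 := by
      rw [div_le_iff₀ (by linarith)]
      linarith
    have h9 := Pool.Agent.Lib.TC.exp_le_density_gen {0} (fun _ => (J : ℝ) / p) (by
      intro r _
      exact ⟨h7, by linarith⟩)
    rw [Finset.sum_singleton, Finset.prod_singleton] at h9
    have h10 := hg p hp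
    linarith
  have h2 : ∏ p ∈ A, (1 - 1 / (p : ℝ)) ^ (2 * J) ≤ ∏ p ∈ P, (1 - 1 / (p : ℝ)) ^ (2 * J) := by
    rw [← Finset.prod_sdiff hPA]
    have h3 : ∏ p ∈ A \ P, (1 - 1 / (p : ℝ)) ^ (2 * J) ≤ 1 :=
      Finset.prod_le_one (fun p hp => pow_nonneg (hp1 p (mem_sdiff.mp hp).1).1.le _)
        (fun p hp => pow_le_one₀ (hp1 p (mem_sdiff.mp hp).1).1.le (hp1 p (mem_sdiff.mp hp).1).2)
    have h4 : 0 ≤ ∏ p ∈ P, (1 - 1 / (p : ℝ)) ^ (2 * J) :=
      Finset.prod_nonneg fun p hp => pow_nonneg (hp1 p (hPA hp)).1.le _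
    calc (∏ p ∈ A \ P, (1 - 1 / (p : ℝ)) ^ (2 * J)) * ∏ p ∈ P, (1 - 1 / (p : ℝ)) ^ (2 * J)
        ≤ 1 * ∏ p ∈ P, (1 - 1 / (p : ℝ)) ^ (2 * J) := mul_le_mul_of_nonneg_right h3 h4
      _ = _ := one_mul _
  have h3 : (∏ p ∈ A, (1 - (1 : ℝ) / p)⁻¹) * ∏ p ∈ A, (1 - 1 / (p : ℝ)) = 1 := by
    rw [← Finset.prod_mul_distrib]
    exact Finset.prod_eq_one fun p hp => inv_mul_cancel₀ (hp1 p hp).1.ne'
  have h4 : 0 < ∏ p ∈ A, (1 - 1 / (p : ℝ)) := Finset.prod_pos fun p hp => (hp1 p hp).1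
  have h5 : 1 ≤ (max Cm 1 * Real.log z) * ∏ p ∈ A, (1 - 1 / (p : ℝ)) := by
    calc (1 : ℝ) = (∏ p ∈ A, (1 - (1 : ℝ) / p)⁻¹) * ∏ p ∈ A, (1 - 1 / (p : ℝ)) := h3.symm
      _ ≤ (Cm * Real.log z) * ∏ p ∈ A, (1 - 1 / (p : ℝ)) := mul_le_mul_of_nonneg_right (hM z hz) h4.le
      _ ≤ (max Cm 1 * Real.log z) * ∏ p ∈ A, (1 - 1 / (p : ℝ)) :=
          mul_le_mul_of_nonneg_right (mul_le_mul_of_nonneg_right (le_max_left _ _) hlog.le) h4.le
  calc (1 : ℝ) ≤ ((max Cm 1 * Real.log z) * ∏ p ∈ A, (1 - 1 / (p : ℝ))) ^ (2 * J) := one_le_pow₀ h5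
    _ = (max Cm 1 * Real.log z) ^ (2 * J) * ∏ p ∈ A, (1 - 1 / (p : ℝ)) ^ (2 * J) := by
        rw [mul_pow, Finset.prod_pow]
    _ ≤ (max Cm 1 * Real.log z) ^ (2 * J) * ∏ p ∈ P, (1 - g p) :=
        mul_le_mul_of_nonneg_left (h2.trans h1) (by positivity)

/-- the number of the subsets of a set of primes with product at most `D` -/
theorem card_small_prod (P : Finset ℕ) (hP : ∀ p ∈ P, p.Prime) (D : ℕ) :
    (P.powerset.filter fun d => ∏ r ∈ d, r ≤ D).card ≤ D := by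
  have h := Finset.card_le_card_of_injOn (s := P.powerset.filter fun d => ∏ r ∈ d, r ≤ D) (t := Icc 1 D)
    (fun d => ∏ r ∈ d, r) (by
      intro d hd
      rw [mem_coe, mem_filter, mem_powerset] at hd
      rw [mem_coe, mem_Icc]
      exact ⟨Nat.one_le_iff_ne_zero.mpr (Finset.prod_ne_zero_iff.mpr fun r hr => (hP r (hd.1 hr)).ne_zero), hd.2⟩) (by
      intro d hd e he hde
      rw [mem_coe, mem_filter, mem_powerset] at hd he
      have hh : ∀ s ⊆ P, (∏ r ∈ s, r).primeFactors = s := fun s hs =>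
        Nat.primeFactors_prod fun p hp => hP p (hs hp)
      have h1 : (∏ r ∈ d, r) = ∏ r ∈ e, r := hde
      rw [← hh d hd.1, ← hh e he.1, h1])
  simpa using h

open Classical in
/-- **The lower sieve.** -/
theorem sl (J : ℕ) (hJ : 1 ≤ J) : ∃ C : ℕ, 1 ≤ C ∧ ∀ z : ℕ, 2 ≤ z → ∀ W : ℕ, 1 ≤ W → ∀ c : ℕ, ∀ Z : ℕ → Finset ℕ,
    (∀ p, (Z p).card ≤ J) → ∀ u v : ℕ, u + W * z ^ C ≤ v →
    ((v : ℝ) - u) / (W * (C * (Real.log z + 1) ^ C)) ≤
      (((Finset.Ioc u v).filter fun n => n ≡ c [MOD W] ∧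
        ∀ p : ℕ, p.Prime → 2 * J ≤ p → p ≤ z → ¬ p ∣ W → n % p ∉ Z p).card : ℝ) := by
  obtain ⟨m, hm1, hdens⟩ := dens J
  obtain ⟨K, hK, hflm⟩ := Pool.Agent.Lib.TC.flm (J : ℝ) (by positivity)
  obtain ⟨b, hb, hb1⟩ : ∃ b : ℕ, K * (1 / 2 : ℝ) ^ b ≤ 1 / 2 ∧ 1 ≤ b := by
    have hlim : Filter.Tendsto (fun b : ℕ => K * (1 / 2 : ℝ) ^ b) Filter.atTop (nhds (K * 0)) :=
      (tendsto_pow_atTop_nhds_zero_of_lt_one (by norm_num) (by norm_num)).const_mul _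
    rw [mul_zero] at hlim
    obtain ⟨b, h1, h2⟩ := ((hlim.eventually (gt_mem_nhds (by norm_num : (0 : ℝ) < 1 / 2))).and
      (Filter.eventually_ge_atTop 1)).exists
    exact ⟨b, h1.le, h2⟩
  obtain ⟨m1, hm1'⟩ := pow_unbounded_of_one_lt m (show (1 : ℝ) < 2 by norm_num)
  obtain ⟨C0, hC0⟩ := exists_nat_ge (4 * m ^ (2 * J))
  refine ⟨C0 + (2 + 24 * b + 2 * J * (m1 + 1) + 2), by omega, fun z hz W hW c Z hZ u v huv => ?_⟩
  set C := C0 + (2 + 24 * b + 2 * J * (m1 + 1) + 2) with hC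
  have hz0 : (2 : ℝ) ≤ z := by exact_mod_cast hz
  have hlog : 0 < Real.log z := Real.log_pos (by linarith)
  have hWR : (1 : ℝ) ≤ W := by exact_mod_cast hW
  set P := (Finset.Icc 1 z).filter (fun p => p.Prime ∧ 2 * J ≤ p ∧ ¬ p ∣ W) with hPdef
  have hP : ∀ p ∈ P, p.Prime ∧ 2 * J ≤ p ∧ p ≤ z ∧ ¬ p ∣ W := by
    intro p hp
    obtain ⟨h1, h2, h3, h4⟩ := mem_filter.mp hp
    exact ⟨h2, h3, (mem_Icc.mp h1).2, h4⟩
  have hPp : ∀ p ∈ P, p.Prime := fun p hp => (hP p hp).1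
  obtain ⟨up, lo, hw1, hw2, hw3, hw4⟩ := hflm b hb1 z hz P (fun r hr => ⟨(hP r hr).1, (hP r hr).2.2.1⟩)
  set Z' : ℕ → Finset ℕ := fun p => (Z p).filter (fun a => a < p) with hZ'
  have hZ'c : ∀ p, (Z' p).card ≤ J := fun p => (card_filter_le _ _).trans (hZ p)
  have hZ'l : ∀ p, ∀ a ∈ Z' p, a < p := fun p a ha => (mem_filter.mp ha).2
  set g : ℕ → ℝ := fun p => ((Z' p).card : ℝ) / p with hg
  have hgP : ∀ r ∈ P, 0 ≤ g r ∧ g r ≤ (J : ℝ) / r ∧ g r ≤ 2 / 3 := by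
    intro r hr
    obtain ⟨h1, h2, h3, h4⟩ := hP r hr
    have hrR : (0 : ℝ) < r := by exact_mod_cast h1.pos
    have h5 : ((Z' r).card : ℝ) ≤ J := by exact_mod_cast hZ'c r
    have h6 : g r ≤ (J : ℝ) / r := div_le_div_of_nonneg_right h5 hrR.le
    refine ⟨by positivity, h6, h6.trans ?_⟩
    rw [div_le_iff₀ hrR]
    have h7 : (2 * J : ℝ) ≤ r := by exact_mod_cast h2
    linarith
  obtain ⟨-, hlo⟩ := hw4 g hgP
  set V := ∏ r ∈ P, (1 - g r) with hV
  have hVpos : 1 ≤ (m * Real.log z) ^ (2 * J) * V :=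
    hdens z hz P (fun p hp => ⟨(hP p hp).1, (hP p hp).2.1, (hP p hp).2.2.1⟩) g (fun p hp => (hgP p hp).2.1)
  have hV0 : 0 < V := by
    have h1 : 0 < (m * Real.log z) ^ (2 * J) := by positivity
    by_contra h2
    push Not at h2
    have := mul_nonpos_of_nonneg_of_nonpos h1.le h2
    linarith
  -- the lower bound by the weights
  have hsum : ∑ d ∈ P.powerset, lo d * (((Finset.Ioc u v).filter fun n => n ≡ c [MOD W] ∧ ∀ p ∈ d, n % p ∈ Z' p).card : ℝ) ≤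
      (((Finset.Ioc u v).filter fun n => n ≡ c [MOD W] ∧
        ∀ p : ℕ, p.Prime → 2 * J ≤ p → p ≤ z → ¬ p ∣ W → n % p ∉ Z p).card : ℝ) := by
    have h1 : ∀ d ∈ P.powerset, lo d * (((Finset.Ioc u v).filter fun n => n ≡ c [MOD W] ∧ ∀ p ∈ d, n % p ∈ Z' p).card : ℝ) =
        ∑ n ∈ (Finset.Ioc u v).filter (fun n => n ≡ c [MOD W]), if (∀ p ∈ d, n % p ∈ Z' p) then lo d else 0 := by
      intro d _
      rw [← Finset.sum_filter, Finset.filter_filter, Finset.sum_const, nsmul_eq_mul, mul_comm]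
    rw [Finset.sum_congr rfl h1, Finset.sum_comm]
    have h2 : (((Finset.Ioc u v).filter fun n => n ≡ c [MOD W] ∧
        ∀ p : ℕ, p.Prime → 2 * J ≤ p → p ≤ z → ¬ p ∣ W → n % p ∉ Z p).card : ℝ) =
        ∑ n ∈ (Finset.Ioc u v).filter (fun n => n ≡ c [MOD W]),
          if P.filter (fun p => n % p ∈ Z' p) = ∅ then (1 : ℝ) else 0 := by
      rw [← Finset.sum_filter, Finset.filter_filter, Finset.sum_const, nsmul_eq_mul, mul_one]
      congr 2
      ext n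
      rw [mem_filter, mem_filter]
      refine and_congr_right fun _ => and_congr_right fun _ => ?_
      rw [Finset.filter_eq_empty_iff]
      constructor
      · intro h p hp
        obtain ⟨h3, h4, h5, h6⟩ := hP p hp
        intro h7
        exact h p h3 h4 h5 h6 (mem_filter.mp h7).1
      · intro h p h3 h4 h5 h6 h7
        exact h (mem_filter.mpr ⟨mem_Icc.mpr ⟨h3.one_lt.le, h5⟩, h3, h4, h6⟩)
          (mem_filter.mpr ⟨h7, Nat.mod_lt _ h3.pos⟩)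
    rw [h2]
    refine Finset.sum_le_sum fun n _ => ?_
    refine le_trans (le_of_eq ?_) (hw3 (P.filter fun p => n % p ∈ Z' p) (filter_subset _ _)).1
    rw [← Finset.sum_filter]
    refine Finset.sum_congr ?_ fun _ _ => rfl
    ext d
    rw [mem_filter, mem_powerset, mem_powerset]
    constructor
    · rintro ⟨h3, h4⟩ p hp
      exact mem_filter.mpr ⟨h3 hp, h4 p hp⟩
    · intro h3
      exact ⟨h3.trans (filter_subset _ _), fun p hp => (mem_filter.mp (h3 hp)).2⟩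
  -- the counts
  have huv' : u ≤ v := by
    have : 0 ≤ W * z ^ C := Nat.zero_le _
    omega
  have hcnt : ∀ d ∈ P.powerset, |(((Finset.Ioc u v).filter fun n => n ≡ c [MOD W] ∧ ∀ p ∈ d, n % p ∈ Z' p).card : ℝ) -
      ((v : ℝ) - u) / W * ∏ p ∈ d, g p| ≤ ∏ p ∈ d, ((Z' p).card : ℝ) := by
    intro d hd
    have hd' := mem_powerset.mp hd
    exact Pool.Agent.Lib.OW.crt_count d (fun p hp => hPp p (hd' hp)) Z' (fun p _ => hZ'l p) u v huv' W hW
      (fun p hp => ((hPp p (hd' hp)).coprime_iff_not_dvd.mpr (hP p (hd' hp)).2.2.2).symm) c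
  set X := ((v : ℝ) - u) / W with hX
  have hXge : (z : ℝ) ^ C ≤ X := by
    rw [hX, le_div_iff₀ (by linarith)]
    have h1 : ((u + W * z ^ C : ℕ) : ℝ) ≤ v := by exact_mod_cast huv
    push_cast at h1
    linarith
  have herr : ∑ d ∈ P.powerset, |lo d| * ∏ p ∈ d, ((Z' p).card : ℝ) ≤ (z : ℝ) ^ (2 + 24 * b) := by
    have h1 : ∀ d ∈ P.powerset, |lo d| * ∏ p ∈ d, ((Z' p).card : ℝ) ≤
        if ∏ r ∈ d, r ≤ z ^ (12 * b) then (z : ℝ) ^ (2 + 12 * b) else 0 := by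
      intro d hd
      have hd' := mem_powerset.mp hd
      have h2 : ∏ p ∈ d, ((Z' p).card : ℝ) ≤ ((∏ r ∈ d, r : ℕ) : ℝ) := by
        push_cast
        refine Finset.prod_le_prod (fun _ _ => by positivity) fun p hp => ?_
        have h3 := (hP p (hd' hp)).2.1
        have h4 := hZ'c p
        exact_mod_cast (by omega : (Z' p).card ≤ p)
      by_cases h5 : ∏ r ∈ d, r ≤ z ^ (12 * b)
      · rw [if_pos h5]
        have h6 : ((∏ r ∈ d, r : ℕ) : ℝ) ≤ (z : ℝ) ^ (12 * b) := by exact_mod_cast h5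
        have h7 : |lo d| ≤ (z : ℝ) ^ 2 := ((hw1 d).2).trans (Pool.Agent.Lib.GT.NJ_le z hz)
        calc |lo d| * ∏ p ∈ d, ((Z' p).card : ℝ) ≤ (z : ℝ) ^ 2 * (z : ℝ) ^ (12 * b) :=
              mul_le_mul h7 (h2.trans h6) (Finset.prod_nonneg fun _ _ => by positivity) (by positivity)
          _ = (z : ℝ) ^ (2 + 12 * b) := by rw [← pow_add]
      · rw [if_neg h5]
        have h6 : lo d = 0 := by
          by_contra h7
          have := hw2 d hd' (Or.inr h7)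
          exact h5 (by exact_mod_cast this)
        rw [h6, abs_zero, zero_mul]
    refine (Finset.sum_le_sum h1).trans ?_
    rw [← Finset.sum_filter, Finset.sum_const, nsmul_eq_mul]
    have h2 : ((P.powerset.filter fun d => ∏ r ∈ d, r ≤ z ^ (12 * b)).card : ℝ) ≤ (z : ℝ) ^ (12 * b) := by
      exact_mod_cast card_small_prod P hPp (z ^ (12 * b))
    calc ((P.powerset.filter fun d => ∏ r ∈ d, r ≤ z ^ (12 * b)).card : ℝ) * (z : ℝ) ^ (2 + 12 * b)
        ≤ (z : ℝ) ^ (12 * b) * (z : ℝ) ^ (2 + 12 * b) := mul_le_mul_of_nonneg_right h2 (by positivity)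
      _ = (z : ℝ) ^ (2 + 24 * b) := by rw [← pow_add]; congr 1; ring
  have hmain : X * (1 / 2 * V) - (z : ℝ) ^ (2 + 24 * b) ≤
      ∑ d ∈ P.powerset, lo d * (((Finset.Ioc u v).filter fun n => n ≡ c [MOD W] ∧ ∀ p ∈ d, n % p ∈ Z' p).card : ℝ) := by
    have h1 : ∑ d ∈ P.powerset, lo d * (((Finset.Ioc u v).filter fun n => n ≡ c [MOD W] ∧ ∀ p ∈ d, n % p ∈ Z' p).card : ℝ) -
        X * ∑ d ∈ P.powerset, lo d * ∏ r ∈ d, g r =
        ∑ d ∈ P.powerset, lo d * ((((Finset.Ioc u v).filter fun n => n ≡ c [MOD W] ∧ ∀ p ∈ d, n % p ∈ Z' p).card : ℝ) -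
          X * ∏ p ∈ d, g p) := by
      rw [Finset.mul_sum, ← Finset.sum_sub_distrib]
      refine Finset.sum_congr rfl fun d _ => ?_
      ring
    have h2 : |∑ d ∈ P.powerset, lo d * ((((Finset.Ioc u v).filter fun n => n ≡ c [MOD W] ∧ ∀ p ∈ d, n % p ∈ Z' p).card : ℝ) -
          X * ∏ p ∈ d, g p)| ≤ (z : ℝ) ^ (2 + 24 * b) := by
      refine (Finset.abs_sum_le_sum_abs _ _).trans (le_trans (Finset.sum_le_sum fun d hd => ?_) herr)
      rw [abs_mul]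
      exact mul_le_mul_of_nonneg_left (hcnt d hd) (abs_nonneg _)
    have h3 : 1 / 2 * V ≤ ∑ d ∈ P.powerset, lo d * ∏ r ∈ d, g r := by
      have h4 := (abs_le.mp hlo).1
      have h5 : K * (1 / 2) ^ b * V ≤ 1 / 2 * V := mul_le_mul_of_nonneg_right hb hV0.le
      linarith
    have hX0 : 0 ≤ X := le_trans (by positivity) hXge
    have h6 := mul_le_mul_of_nonneg_left h3 hX0
    have h7 := (abs_le.mp h2).1
    linarith
  -- comparison
  have hml : (m * Real.log z) ^ (2 * J) ≤ (z : ℝ) ^ (2 * J * (m1 + 1)) := by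
    have h1 : m ≤ (z : ℝ) ^ m1 := hm1'.le.trans (pow_le_pow_left₀ (by norm_num) hz0 _)
    have h2 : Real.log z ≤ z := (Real.log_le_sub_one_of_pos (by linarith)).trans (by linarith)
    have h3 : m * Real.log z ≤ (z : ℝ) ^ (m1 + 1) := by
      rw [pow_succ]
      exact mul_le_mul h1 h2 hlog.le (by positivity)
    calc (m * Real.log z) ^ (2 * J) ≤ ((z : ℝ) ^ (m1 + 1)) ^ (2 * J) :=
          pow_le_pow_left₀ (by positivity) h3 _
      _ = (z : ℝ) ^ (2 * J * (m1 + 1)) := by rw [← pow_mul]; congr 1; ring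
  have hX0 : 0 < X := lt_of_lt_of_le (by positivity) hXge
  have hcomp : (z : ℝ) ^ (2 + 24 * b) ≤ X * (1 / 4 * V) := by
    have h1 : (4 : ℝ) * (z : ℝ) ^ (2 + 24 * b) * (m * Real.log z) ^ (2 * J) ≤ X := by
      calc (4 : ℝ) * (z : ℝ) ^ (2 + 24 * b) * (m * Real.log z) ^ (2 * J)
          ≤ (z : ℝ) ^ 2 * (z : ℝ) ^ (2 + 24 * b) * (z : ℝ) ^ (2 * J * (m1 + 1)) := by
            refine mul_le_mul (mul_le_mul_of_nonneg_right (by nlinarith) (by positivity)) hml (by positivity) (by positivity)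
        _ = (z : ℝ) ^ (2 + (2 + 24 * b) + 2 * J * (m1 + 1)) := by rw [← pow_add, ← pow_add]
        _ ≤ (z : ℝ) ^ C := pow_le_pow_right₀ (by linarith) (by omega)
        _ ≤ X := hXge
    have h2 : 0 < (m * Real.log z) ^ (2 * J) := by positivity
    have h3 : (z : ℝ) ^ (2 + 24 * b) * (m * Real.log z) ^ (2 * J) ≤ X * (1 / 4) := by linarith
    calc (z : ℝ) ^ (2 + 24 * b) = (z : ℝ) ^ (2 + 24 * b) * 1 := (mul_one _).symm
      _ ≤ (z : ℝ) ^ (2 + 24 * b) * ((m * Real.log z) ^ (2 * J) * V) :=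
          mul_le_mul_of_nonneg_left hVpos (by positivity)
      _ = (z : ℝ) ^ (2 + 24 * b) * (m * Real.log z) ^ (2 * J) * V := by ring
      _ ≤ X * (1 / 4) * V := mul_le_mul_of_nonneg_right h3 hV0.le
      _ = X * (1 / 4 * V) := by ring
  have hfin : ((v : ℝ) - u) / (W * (C * (Real.log z + 1) ^ C)) ≤ X * (1 / 4 * V) := by
    have h1 : ((v : ℝ) - u) / (W * (C * (Real.log z + 1) ^ C)) = X / (C * (Real.log z + 1) ^ C) := by
      rw [hX, div_div]
    rw [h1, div_eq_mul_inv]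
    refine mul_le_mul_of_nonneg_left ?_ hX0.le
    have hL1 : 1 ≤ Real.log z + 1 := by linarith
    have h2 : 4 * (m * Real.log z) ^ (2 * J) ≤ C * (Real.log z + 1) ^ C := by
      have h3 : (m * Real.log z) ^ (2 * J) ≤ m ^ (2 * J) * (Real.log z + 1) ^ C := by
        rw [mul_pow]
        refine mul_le_mul_of_nonneg_left ?_ (by positivity)
        calc (Real.log z) ^ (2 * J) ≤ (Real.log z + 1) ^ (2 * J) := pow_le_pow_left₀ hlog.le (by linarith) _
          _ ≤ (Real.log z + 1) ^ C := pow_le_pow_right₀ hL1 (by rw [hC]; nlinarith)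
      have h4 : (C0 : ℝ) ≤ C := by exact_mod_cast (by omega : C0 ≤ C)
      have h5 : 0 ≤ (Real.log z + 1) ^ C := by positivity
      calc 4 * (m * Real.log z) ^ (2 * J) ≤ 4 * (m ^ (2 * J) * (Real.log z + 1) ^ C) := by linarith
        _ = (4 * m ^ (2 * J)) * (Real.log z + 1) ^ C := by ring
        _ ≤ C * (Real.log z + 1) ^ C := mul_le_mul_of_nonneg_right (hC0.trans h4) h5
    have h3 : 0 < C * (Real.log z + 1) ^ C := by
      have : (0 : ℝ) < C := by exact_mod_cast (by omega : 0 < C)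
      positivity
    rw [inv_le_iff_one_le_mul₀ h3]
    calc (1 : ℝ) ≤ (m * Real.log z) ^ (2 * J) * V := hVpos
      _ = 4 * (m * Real.log z) ^ (2 * J) * (1 / 4 * V) := by ring
      _ ≤ (C * (Real.log z + 1) ^ C) * (1 / 4 * V) := mul_le_mul_of_nonneg_right h2 (by positivity)
      _ = _ := by ring
  linarith

end Pool.Agent.Lib.OD
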