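import Pool.Agent.Lib.MP_092512_nt.OD.Defs
import Pool.Agent.Lib.MP_092512_nt.OD.SL

/-!
# Odd products, module EX: a number `d` with all `d + o` free of primes `≤ Y` and pairwise coprime
-/

set_option autoImplicit false

open Finset

namespace Pool.Agent.Lib.OD

/-- the large primes of a number `≤ Y ^ A` -/
private theorem ex_pf (Y A m : ℕ) (hY : 2 ≤ Y) (hm : 0 < m) (hmA : m ≤ Y ^ A) :
    (m.primeFactors.filter fun p => Y < p).card ≤ A := by
  have h1 : Y ^ (m.primeFactors.filter fun p => Y < p).card ≤ ∏ p ∈ m.primeFactors.filter (fun p => Y < p), p :=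
    Finset.pow_card_le_prod _ _ _ fun p hp => (mem_filter.mp hp).2.le
  have h2 : ∏ p ∈ m.primeFactors.filter (fun p => Y < p), p ∣ ∏ p ∈ m.primeFactors, p :=
    Finset.prod_dvd_prod_of_subset _ _ _ (filter_subset _ _)
  have h3 : ∏ p ∈ m.primeFactors.filter (fun p => Y < p), p ≤ m :=
    Nat.le_of_dvd hm (h2.trans (Nat.prod_primeFactors_dvd m))
  exact (Nat.pow_le_pow_iff_right hY).1 ((h1.trans h3).trans hmA)

/-- multiples in an interval -/
private theorem ex_cnt (u v o p : ℕ) (hp : 0 < p) (huv : u ≤ v) :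
    ((Ioc u v).filter fun d => p ∣ d + o).card ≤ (v - u) / p + 2 := by
  have h1 : ((Ioc u v).filter fun d => p ∣ d + o).card ≤ (Icc ((u + o) / p) ((u + o) / p + ((v - u) / p + 1))).card := by
    refine card_le_card_of_injOn (fun d => (d + o) / p) ?_ ?_
    · intro d hd
      rw [mem_coe, mem_filter, mem_Ioc] at hd
      rw [mem_coe, mem_Icc]
      refine ⟨Nat.div_le_div_right (by omega), ?_⟩
      have h2 : (d + o) / p ≤ (v + o) / p := Nat.div_le_div_right (by omega)
      have h3 : (v + o) / p ≤ (u + o) / p + ((v - u) / p + 1) := by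
        have h4 : v + o = (u + o) + (v - u) := by omega
        rw [h4]
        have h5 := Nat.add_div (a := u + o) (b := v - u) (c := p) hp
        rw [h5]
        split_ifs <;> omega
      exact h2.trans h3
    · intro d hd e he h
      rw [mem_coe, mem_filter] at hd he
      have h' : (d + o) / p = (e + o) / p := h
      have h1 := Nat.div_mul_cancel hd.2
      have h2 := Nat.div_mul_cancel he.2
      rw [h'] at h1
      omega
  refine h1.trans (le_of_eq ?_)
  rw [Nat.card_Icc]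
  generalize (u + o) / p = a
  generalize (v - u) / p = b
  omega

/-- the numerical condition -/
private theorem ex_num (K C1 : ℕ) : ∃ Y0 : ℕ, 3 ≤ Y0 ∧ ∀ Y : ℕ, Y0 ≤ Y →
    (K : ℝ) * (Real.log Y + 1) ^ C1 < Y := by
  have h := (Real.isLittleO_pow_log_id_atTop (n := C1)).bound
    (c := 1 / (2 * ((K : ℝ) + 1) * 2 ^ C1)) (by positivity)
  have h1 := tendsto_natCast_atTop_atTop (R := ℝ) |>.eventually h
  obtain ⟨N, hN⟩ := Filter.eventually_atTop.1 h1
  refine ⟨max N 3, le_max_right _ _, fun Y hY => ?_⟩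
  have hY3 : 3 ≤ Y := (le_max_right _ _).trans hY
  have hYr : (3 : ℝ) ≤ Y := by exact_mod_cast hY3
  have h2 := hN Y ((le_max_left _ _).trans hY)
  have hlog : 1 ≤ Real.log Y := by
    rw [Real.le_log_iff_exp_le (by linarith)]
    have := Real.exp_one_lt_d9
    linarith
  rw [Real.norm_of_nonneg (by positivity), id, Real.norm_of_nonneg (by linarith)] at h2
  have h3 : (Real.log Y + 1) ^ C1 ≤ (2 * Real.log Y) ^ C1 :=
    pow_le_pow_left₀ (by linarith) (by linarith) _
  rw [mul_pow] at h3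
  have hK0 : (0 : ℝ) ≤ K := Nat.cast_nonneg K
  have h4 : (K : ℝ) * (Real.log Y + 1) ^ C1 ≤ K * (2 ^ C1 * (1 / (2 * ((K : ℝ) + 1) * 2 ^ C1) * Y)) := by
    refine mul_le_mul_of_nonneg_left (h3.trans ?_) hK0
    exact mul_le_mul_of_nonneg_left h2 (by positivity)
  have h5 : (K : ℝ) * (2 ^ C1 * (1 / (2 * ((K : ℝ) + 1) * 2 ^ C1) * Y)) = K / (2 * (K + 1)) * Y := by
    field_simp
  have h6 : (K : ℝ) / (2 * (K + 1)) ≤ 1 / 2 := by
    rw [div_le_div_iff₀ (by positivity) (by norm_num)]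
    linarith
  rw [h5] at h4
  have h7 : (K : ℝ) / (2 * (K + 1)) * Y ≤ 1 / 2 * Y := mul_le_mul_of_nonneg_right h6 (by linarith)
  linarith

open Classical in
theorem ex (J A W : ℕ) (hJ : 1 ≤ J) (hW : 1 ≤ W) (hWp : ∀ p : ℕ, p.Prime → p < 2 * J → p ∣ W) :
    ∃ C Y0 : ℕ, ∀ Y, Y0 ≤ Y → ∀ O E : Finset ℕ, O.card ≤ J → E.card ≤ J →
    (∀ o ∈ O, W ∣ o ∧ o ≤ Y ^ A) → (∀ e ∈ E, 0 < e ∧ e ≤ Y ^ A ∧ YR Y e) →
    ∃ d, Y ^ A < d ∧ d ≤ Y ^ C ∧ d ≡ 1 [MOD W] ∧ (∀ o ∈ O, YR Y (d + o) ∧ d + o ≤ Y ^ C) ∧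
      (∀ o ∈ O, ∀ o' ∈ O, o ≠ o' → (d + o).Coprime (d + o')) ∧
      (∀ o ∈ O, ∀ e ∈ E, (d + o).Coprime e) := by
  obtain ⟨C1, hC1, hsl⟩ := sl J hJ
  obtain ⟨Y1, hY1, hnum⟩ := ex_num ((J + J * J) * A * J * (3 * W) * C1) C1
  refine ⟨A + C1 + 1, max Y1 (W + 2), fun Y hY O E hO hE hOo hEe => ?_⟩
  have hYa : Y1 ≤ Y := (le_max_left _ _).trans hY
  have hYb : W + 2 ≤ Y := (le_max_right _ _).trans hY
  have hY3 : 3 ≤ Y := hY1.trans hYa
  set u := Y ^ A with hu
  set v := Y ^ A + W * Y ^ C1 with hv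
  set Z : ℕ → Finset ℕ := fun p => O.image fun o => (p - o % p) % p with hZ
  set S := (Finset.Ioc u v).filter fun n => n ≡ 1 [MOD W] ∧
        ∀ p : ℕ, p.Prime → 2 * J ≤ p → p ≤ Y → ¬ p ∣ W → n % p ∉ Z p with hS
  have hcard := hsl Y (by omega) W hW 1 Z (fun p => card_image_le.trans hO) u v le_rfl
  rw [← hS] at hcard
  -- every element of `S` is good at the small primes
  have hyr : ∀ d ∈ S, ∀ o ∈ O, YR Y (d + o) := by
    intro d hd o ho p hp hpd
    rw [hS, mem_filter] at hd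
    obtain ⟨hd1, hd2, hd3⟩ := hd
    by_contra hpY
    have hWd : ¬ p ∣ W := by
      intro hpW
      have h1 : d ≡ 1 [MOD p] := hd2.of_dvd hpW
      have h2 : p ∣ o := hpW.trans (hOo o ho).1
      have h3 : p ∣ d := (Nat.dvd_add_left h2).1 hpd
      have h4 : p ∣ 1 := (Nat.ModEq.dvd_iff h1 dvd_rfl).1 h3
      exact hp.one_lt.ne' (Nat.dvd_one.1 h4)
    have h2J : 2 * J ≤ p := by
      by_contra h
      exact hWd (hWp p hp (by omega))
    refine hd3 p hp h2J (by omega) hWd ?_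
    rw [hZ, mem_image]
    refine ⟨o, ho, ?_⟩
    have h5 : (p - o % p) % p ≡ d [MOD p] := by
      have h6 : p - o % p + o ≡ d + o [MOD p] := by
        have h7 : p - o % p + o ≡ 0 [MOD p] := by
          have h8 : p - o % p + o = p + p * (o / p) := by
            have := Nat.mod_add_div o p
            have := (Nat.mod_lt o hp.pos).le
            omega
          rw [h8]
          exact (Nat.modEq_zero_iff_dvd).2 (Dvd.intro _ (by ring : p * (1 + o / p) = p + p * (o / p)))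
        exact h7.trans ((Nat.modEq_zero_iff_dvd).2 hpd).symm
      exact (Nat.mod_modEq _ _).trans (Nat.ModEq.add_right_cancel' o h6)
    have h9 := h5
    rw [Nat.ModEq, Nat.mod_mod] at h9
    exact h9
  -- the dangerous primes
  set MM : Finset ℕ := E ∪ ((O ×ˢ O).filter fun q => q.1 ≠ q.2).image (fun q => (q.1 - q.2) + (q.2 - q.1)) with hMM
  have hMMc : MM.card ≤ J + J * J := by
    refine (card_union_le _ _).trans (Nat.add_le_add hE ?_)
    refine card_image_le.trans ((card_filter_le _ _).trans ?_)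
    rw [card_product]
    exact Nat.mul_le_mul hO hO
  have hMMe : ∀ m ∈ MM, 0 < m ∧ m ≤ Y ^ A := by
    intro m hm
    rw [hMM, mem_union, mem_image] at hm
    rcases hm with hm | ⟨q, hq, rfl⟩
    · exact ⟨(hEe m hm).1, (hEe m hm).2.1⟩
    · rw [mem_filter, mem_product] at hq
      have h1 := (hOo q.1 hq.1.1).2
      have h2 := (hOo q.2 hq.1.2).2
      have h3 := hq.2
      constructor
      · omega
      · omega
  set PP : Finset ℕ := MM.biUnion fun m => m.primeFactors.filter fun p => Y < p with hPP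
  have hPPc : PP.card ≤ (J + J * J) * A := by
    refine card_biUnion_le.trans ?_
    calc ∑ m ∈ MM, (m.primeFactors.filter fun p => Y < p).card ≤ ∑ _m ∈ MM, A :=
          sum_le_sum fun m hm => ex_pf Y A m (by omega) (hMMe m hm).1 (hMMe m hm).2
      _ = MM.card * A := by rw [sum_const, smul_eq_mul]
      _ ≤ _ := Nat.mul_le_mul_right _ hMMc
  set BB : Finset ℕ := PP.biUnion fun p => O.biUnion fun o => (Ioc u v).filter fun d => p ∣ d + o with hBB
  have hC1' : Y ^ C1 = Y ^ (C1 - 1) * Y := by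
    rw [← pow_succ]
    congr 1
    omega
  have hBBc : BB.card ≤ (J + J * J) * A * (J * (3 * W * Y ^ (C1 - 1))) := by
    refine card_biUnion_le.trans ?_
    have h1 : ∀ p ∈ PP, (O.biUnion fun o => (Ioc u v).filter fun d => p ∣ d + o).card ≤
        J * (3 * W * Y ^ (C1 - 1)) := by
      intro p hp
      rw [hPP, mem_biUnion] at hp
      obtain ⟨m, hm, hpm⟩ := hp
      rw [mem_filter] at hpm
      refine card_biUnion_le.trans ?_
      calc ∑ o ∈ O, ((Ioc u v).filter fun d => p ∣ d + o).card ≤ ∑ _o ∈ O, 3 * W * Y ^ (C1 - 1) := by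
            refine sum_le_sum fun o _ => ?_
            refine (ex_cnt u v o p (by omega) (by omega)).trans ?_
            have h2 : (v - u) / p ≤ W * Y ^ (C1 - 1) := by
              have h3 : v - u = W * Y ^ (C1 - 1) * Y := by
                rw [hv, hu, Nat.add_sub_cancel_left, hC1']
                ring
              rw [h3]
              calc W * Y ^ (C1 - 1) * Y / p ≤ W * Y ^ (C1 - 1) * p / p :=
                    Nat.div_le_div_right (Nat.mul_le_mul_left _ hpm.2.le)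
                _ = W * Y ^ (C1 - 1) := Nat.mul_div_cancel _ (by omega)
            have h4 : 1 ≤ W * Y ^ (C1 - 1) := Nat.mul_pos hW (Nat.pow_pos (by omega))
            have h5 : 3 * W * Y ^ (C1 - 1) = 3 * (W * Y ^ (C1 - 1)) := by ring
            rw [h5]
            omega
        _ = O.card * (3 * W * Y ^ (C1 - 1)) := by rw [sum_const, smul_eq_mul]
        _ ≤ _ := Nat.mul_le_mul_right _ hO
    calc ∑ p ∈ PP, (O.biUnion fun o => (Ioc u v).filter fun d => p ∣ d + o).card ≤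
          ∑ _p ∈ PP, J * (3 * W * Y ^ (C1 - 1)) := sum_le_sum h1
      _ = PP.card * (J * (3 * W * Y ^ (C1 - 1))) := by rw [sum_const, smul_eq_mul]
      _ ≤ _ := Nat.mul_le_mul_right _ hPPc
  -- comparison
  have hlt : BB.card < S.card := by
    have hYr : (0 : ℝ) < Y := by
      have : 0 < Y := by omega
      exact_mod_cast this
    have hlog : 0 < Real.log Y := Real.log_pos (by exact_mod_cast (by omega : 1 < Y))
    have hWr : (0 : ℝ) < W := by exact_mod_cast hW
    have hC1r : (0 : ℝ) < C1 := by exact_mod_cast hC1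
    have h1 : ((v : ℝ) - u) = W * (Y : ℝ) ^ C1 := by
      rw [hv, hu]
      push_cast
      ring
    rw [h1] at hcard
    have h2 : (W : ℝ) * (Y : ℝ) ^ C1 / (W * (C1 * (Real.log Y + 1) ^ C1)) =
        (Y : ℝ) ^ C1 / (C1 * (Real.log Y + 1) ^ C1) := by
      rw [mul_div_mul_left _ _ hWr.ne']
    rw [h2] at hcard
    have hn := hnum Y hYa
    have h3 : (BB.card : ℝ) ≤ ((J + J * J) * A * (J * (3 * W * Y ^ (C1 - 1))) : ℕ) := by exact_mod_cast hBBc
    have h4 : (((J + J * J) * A * (J * (3 * W * Y ^ (C1 - 1))) : ℕ) : ℝ) <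
        (Y : ℝ) ^ C1 / (C1 * (Real.log Y + 1) ^ C1) := by
      rw [lt_div_iff₀ (by positivity)]
      have h5 : (Y : ℝ) ^ C1 = (Y : ℝ) ^ (C1 - 1) * Y := by exact_mod_cast hC1'
      rw [h5]
      have h6 : (((J + J * J) * A * (J * (3 * W * Y ^ (C1 - 1))) : ℕ) : ℝ) * (C1 * (Real.log Y + 1) ^ C1) =
          (Y : ℝ) ^ (C1 - 1) * ((((J + J * J) * A * J * (3 * W) * C1 : ℕ) : ℝ) * (Real.log Y + 1) ^ C1) := by
        push_cast
        ring
      rw [h6]
      exact mul_lt_mul_of_pos_left hn (by positivity)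
    have h7 : (BB.card : ℝ) < S.card := by linarith
    exact_mod_cast h7
  obtain ⟨d, hdS, hdB⟩ := Finset.exists_mem_notMem_of_card_lt_card hlt
  have hd := hdS
  rw [hS, mem_filter, mem_Ioc] at hd
  obtain ⟨⟨hd1, hd2⟩, hd3, -⟩ := hd
  have hdB' : ∀ m ∈ MM, ∀ o ∈ O, ∀ p : ℕ, p.Prime → p ∣ m → ¬ p ∣ d + o := by
    intro m hm o ho p hp hpm hpd
    apply hdB
    rw [hBB, mem_biUnion]
    refine ⟨p, ?_, ?_⟩
    · rw [hPP, mem_biUnion]
      refine ⟨m, hm, ?_⟩
      rw [mem_filter, Nat.mem_primeFactors]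
      exact ⟨⟨hp, hpm, (hMMe m hm).1.ne'⟩, hyr d hdS o ho p hp hpd⟩
    · rw [mem_biUnion]
      refine ⟨o, ho, ?_⟩
      rw [mem_filter, mem_Ioc]
      exact ⟨⟨hd1, hd2⟩, hpd⟩
  have hbig : ∀ o, o ≤ Y ^ A → d + o ≤ Y ^ (A + C1 + 1) := by
    intro o ho
    have h1 : Y ^ A ≤ Y ^ (A + C1) := Nat.pow_le_pow_right (by omega) (by omega)
    have h2 : Y ^ C1 ≤ Y ^ (A + C1) := Nat.pow_le_pow_right (by omega) (by omega)
    calc d + o ≤ Y ^ A + W * Y ^ C1 + Y ^ A := Nat.add_le_add hd2 ho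
      _ ≤ Y ^ (A + C1) + W * Y ^ (A + C1) + Y ^ (A + C1) :=
          Nat.add_le_add (Nat.add_le_add h1 (Nat.mul_le_mul_left _ h2)) h1
      _ = (W + 2) * Y ^ (A + C1) := by ring
      _ ≤ Y * Y ^ (A + C1) := Nat.mul_le_mul_right _ hYb
      _ = Y ^ (A + C1 + 1) := by rw [pow_succ]; ring
  refine ⟨d, hd1, ?_, hd3, fun o ho => ⟨hyr d hdS o ho, hbig o (hOo o ho).2⟩, ?_, ?_⟩
  · have := hbig 0 (Nat.zero_le _)
    simpa using this
  · intro o ho o' ho' hne
    refine Nat.coprime_of_dvd fun p hp h1 h2 => ?_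
    have hm : (o - o') + (o' - o) ∈ MM := by
      rw [hMM, mem_union, mem_image]
      exact Or.inr ⟨(o, o'), by rw [mem_filter, mem_product]; exact ⟨⟨ho, ho'⟩, hne⟩, rfl⟩
    refine hdB' _ hm o ho p hp ?_ h1
    rcases Nat.le_total o o' with h | h
    · have h3 : (o - o') + (o' - o) = (d + o') - (d + o) := by omega
      rw [h3]
      exact Nat.dvd_sub h2 h1
    · have h3 : (o - o') + (o' - o) = (d + o) - (d + o') := by omega
      rw [h3]
      exact Nat.dvd_sub h1 h2
  · intro o ho e he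
    refine Nat.coprime_of_dvd fun p hp h1 h2 => ?_
    have hm : e ∈ MM := by
      rw [hMM, mem_union]
      exact Or.inl he
    exact hdB' e hm o ho p hp h2 h1

end Pool.Agent.Lib.OD
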