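import Pool.Agent.Lib.MP_092512_nt.OD.Defs
import Pool.Agent.Lib.MP_d69540_co.PA

/-!
# Odd products, module PR: three primes `≡ 1 mod M` between `Y` and `Y ^ 2`
-/

set_option autoImplicit false

open Finset

namespace Pool.Agent.Lib.OD

private theorem pr_one (M : ℕ) (hM : 1 ≤ M) : ∃ x0 : ℝ, ∀ x : ℝ, x0 ≤ x →
    ∃ q : ℕ, q.Prime ∧ q ≡ 1 [MOD M] ∧ x / 2 ≤ q ∧ (q : ℝ) ≤ x := by
  obtain ⟨x0, h⟩ := Pool.Agent.Lib.MP_d69540_co.primes_ap M hM (1 / 2) (by norm_num)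
  refine ⟨x0, fun x hx => ?_⟩
  obtain ⟨q, hq, hd, h1, h2⟩ := h x hx
  refine ⟨q, hq, ?_, ?_, h2⟩
  · exact ((Nat.modEq_iff_dvd' hq.one_lt.le).2 hd).symm
  · linarith

theorem pr (M : ℕ) (hM : 1 ≤ M) : ∃ Y0 : ℕ, ∀ Y : ℕ, Y0 ≤ Y → ∃ q1 q2 q3 : ℕ,
    q1.Prime ∧ q2.Prime ∧ q3.Prime ∧ Y < q1 ∧ q1 < q2 ∧ q2 < q3 ∧ q3 ≤ Y ^ 2 ∧
    q1 ≡ 1 [MOD M] ∧ q2 ≡ 1 [MOD M] ∧ q3 ≡ 1 [MOD M] := by
  obtain ⟨x0, h⟩ := pr_one M hM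
  obtain ⟨N, hN⟩ := exists_nat_ge x0
  refine ⟨max N 64, fun Y hY => ?_⟩
  have hY1 : N ≤ Y := (le_max_left _ _).trans hY
  have hY2 : 64 ≤ Y := (le_max_right _ _).trans hY
  have hY1r : (N : ℝ) ≤ Y := by exact_mod_cast hY1
  have hY2r : (64 : ℝ) ≤ Y := by exact_mod_cast hY2
  obtain ⟨q1, a1, b1, c1, d1⟩ := h (4 * Y) (by linarith)
  obtain ⟨q2, a2, b2, c2, d2⟩ := h (16 * Y) (by linarith)
  obtain ⟨q3, a3, b3, c3, d3⟩ := h (64 * Y) (by linarith)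
  refine ⟨q1, q2, q3, a1, a2, a3, ?_, ?_, ?_, ?_, b1, b2, b3⟩
  · have : (Y : ℝ) < q1 := by linarith
    exact_mod_cast this
  · have : (q1 : ℝ) < q2 := by linarith
    exact_mod_cast this
  · have : (q2 : ℝ) < q3 := by linarith
    exact_mod_cast this
  · have h1 : (q3 : ℝ) ≤ ((64 * Y : ℕ) : ℝ) := by
      push_cast
      linarith
    have h2 : q3 ≤ 64 * Y := by exact_mod_cast h1
    nlinarith

end Pool.Agent.Lib.OD
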