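import Pool.Agent.Lib.MP_092512_nt.OD.CB
import Pool.Agent.Lib.MP_092512_nt.OD.EX
import Pool.Agent.Lib.MP_092512_nt.OD.PR

/-!
# Odd products, module CI: existence of a cube with product `-1`
-/

set_option autoImplicit false

open Finset

namespace Pool.Agent.Lib.OD

variable {ι : Type*} [DecidableEq ι]

/-- separation of the sums over the directions different from `i0` -/
def Sep (I : Finset ι) (i0 : ι) (t : ι → ℕ) : Prop :=
  ∀ S ⊆ I.erase i0, ∀ T ⊆ I.erase i0, S ≠ T →
    (∑ i ∈ S, t i) + t i0 < ∑ i ∈ T, t i ∨ (∑ i ∈ T, t i) + t i0 < ∑ i ∈ S, t i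

theorem cv_update_mem {I : Finset ι} {j : ι} (hj : j ∉ I) {x y : ℕ} (hxy : x ≤ y) (t : ι → ℕ) {S : Finset ι}
    (hS : S ⊆ insert j I) (hjS : j ∈ S) : cv x (Function.update t j (y - x)) S = cv y t (S.erase j) := by
  conv_lhs => rw [← Finset.insert_erase hjS]
  rw [cv_insert (Finset.notMem_erase j S), Function.update_self]
  have h : cv x (Function.update t j (y - x)) (S.erase j) = cv x t (S.erase j) := by
    refine cv_congr fun i hi => ?_
    rw [Function.update_of_ne (Finset.ne_of_mem_erase hi)]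
  rw [h]
  unfold cv
  omega

theorem cv_update_notMem {j : ι} {x w : ℕ} (t : ι → ℕ) {S : Finset ι} (hjS : j ∉ S) :
    cv x (Function.update t j w) S = cv x t S := by
  refine cv_congr fun i hi => ?_
  rw [Function.update_of_ne]
  rintro rfl
  exact hjS hi

theorem erase_sub {I : Finset ι} {j : ι} {S : Finset ι} (hS : S ⊆ insert j I) : S.erase j ⊆ I := by
  intro i hi
  rcases mem_insert.mp (hS (Finset.mem_of_mem_erase hi)) with h | h
  · exact absurd h (Finset.ne_of_mem_erase hi)
  · exact h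

theorem sub_of_notMem {I : Finset ι} {j : ι} {S : Finset ι} (hS : S ⊆ insert j I) (hj : j ∉ S) : S ⊆ I := by
  intro i hi
  rcases mem_insert.mp (hS hi) with h | h
  · subst h; exact absurd hi hj
  · exact h

theorem cube_mk {W Y D : ℕ} {I : Finset ι} {j : ι} (hj : j ∉ I) {x y : ℕ} (hx : 1 < x) (hxy : x ≤ y)
    (hx1 : x ≡ 1 [MOD W]) (hy1 : y ≡ 1 [MOD W]) (t : ι → ℕ) (ht : ∀ i ∈ I, W ∣ t i)
    (h1 : ∀ S ⊆ I, YR Y (cv x t S) ∧ cv x t S ≤ D) (h2 : ∀ S ⊆ I, YR Y (cv y t S) ∧ cv y t S ≤ D)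
    (c1 : ∀ S ⊆ I, ∀ T ⊆ I, S ≠ T → (cv x t S).Coprime (cv x t T))
    (c2 : ∀ S ⊆ I, ∀ T ⊆ I, S ≠ T → (cv y t S).Coprime (cv y t T))
    (c3 : ∀ S ⊆ I, ∀ T ⊆ I, (cv x t S).Coprime (cv y t T)) :
    Cube W Y D (insert j I) x (Function.update t j (y - x)) := by
  refine ⟨hx, ?_, hx1, ?_, ?_, ?_⟩
  · intro i hi
    rcases mem_insert.mp hi with h | hi'
    · rw [h, Function.update_self]
      exact (Nat.modEq_iff_dvd' hxy).mp (hx1.trans hy1.symm)
    · rw [Function.update_of_ne]
      · exact ht i hi'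
      · rintro rfl; exact hj hi'
  · intro S hS
    by_cases hjS : j ∈ S
    · rw [cv_update_mem hj hxy t hS hjS]; exact (h2 _ (erase_sub hS)).1
    · rw [cv_update_notMem t hjS]; exact (h1 _ (sub_of_notMem hS hjS)).1
  · intro S hS
    by_cases hjS : j ∈ S
    · rw [cv_update_mem hj hxy t hS hjS]; exact (h2 _ (erase_sub hS)).2
    · rw [cv_update_notMem t hjS]; exact (h1 _ (sub_of_notMem hS hjS)).2
  · intro S hS T hT hST
    by_cases hjS : j ∈ S <;> by_cases hjT : j ∈ T
    · rw [cv_update_mem hj hxy t hS hjS, cv_update_mem hj hxy t hT hjT]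
      refine c2 _ (erase_sub hS) _ (erase_sub hT) fun h => hST ?_
      rw [← Finset.insert_erase hjS, ← Finset.insert_erase hjT, h]
    · rw [cv_update_mem hj hxy t hS hjS, cv_update_notMem t hjT]
      exact (c3 _ (sub_of_notMem hT hjT) _ (erase_sub hS)).symm
    · rw [cv_update_notMem t hjS, cv_update_mem hj hxy t hT hjT]
      exact c3 _ (sub_of_notMem hS hjS) _ (erase_sub hT)
    · rw [cv_update_notMem t hjS, cv_update_notMem t hjT]
      exact c1 _ (sub_of_notMem hS hjS) _ (sub_of_notMem hT hjT) hST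

theorem sep_halve {I : Finset ι} {i0 : ι} {t : ι → ℕ} {s : ℕ} (h : Sep I i0 t) (hs : s ≤ t i0) :
    Sep I i0 (Function.update t i0 s) := by
  intro S hS T hT hST
  have e : ∀ U ⊆ I.erase i0, ∑ i ∈ U, Function.update t i0 s i = ∑ i ∈ U, t i := by
    intro U hU
    refine Finset.sum_congr rfl fun i hi => ?_
    rw [Function.update_of_ne (Finset.ne_of_mem_erase (hU hi))]
  rw [e S hS, e T hT, Function.update_self]
  rcases h S hS T hT hST with h1 | h1
  · left; omega
  · right; omega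

theorem sep_mk {I : Finset ι} {i0 j : ι} {t : ι → ℕ} {w : ℕ} (hi : i0 ∈ I) (hj : j ∉ I) (h : Sep I i0 t)
    (hw : ∑ i ∈ I, t i < w) : Sep (insert j I) i0 (Function.update t j w) := by
  have hij : i0 ≠ j := by rintro rfl; exact hj hi
  intro S hS T hT hST
  rw [Function.update_of_ne hij]
  have e0 : ∀ U : Finset ι, j ∉ U → ∑ i ∈ U, Function.update t j w i = ∑ i ∈ U, t i := by
    intro U hU
    refine Finset.sum_congr rfl fun i hi' => ?_
    rw [Function.update_of_ne]
    rintro rfl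
    exact hU hi'
  have e1 : ∀ U : Finset ι, j ∈ U → ∑ i ∈ U, Function.update t j w i = (∑ i ∈ U.erase j, t i) + w := by
    intro U hU
    conv_lhs => rw [← Finset.insert_erase hU]
    rw [Finset.sum_insert (Finset.notMem_erase j U), Function.update_self, e0 _ (Finset.notMem_erase j U)]
    ring
  have hsub : ∀ U ⊆ (insert j I).erase i0, U.erase j ⊆ I.erase i0 := by
    intro U hU i hi'
    have h1 := hU (Finset.mem_of_mem_erase hi')
    rw [mem_erase, mem_insert] at h1
    rcases h1.2 with h2 | h2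
    · exact absurd h2 (Finset.ne_of_mem_erase hi')
    · exact mem_erase.mpr ⟨h1.1, h2⟩
  have hsub' : ∀ U ⊆ (insert j I).erase i0, j ∉ U → U ⊆ I.erase i0 := by
    intro U hU hjU
    have h1 := hsub U hU
    rwa [Finset.erase_eq_of_notMem hjU] at h1
  have hsmall : ∀ U ⊆ I.erase i0, (∑ i ∈ U, t i) + t i0 ≤ ∑ i ∈ I, t i := by
    intro U hU
    rw [← Finset.sum_erase_add I t hi]
    exact Nat.add_le_add_right (Finset.sum_le_sum_of_subset hU) _
  by_cases hjS : j ∈ S <;> by_cases hjT : j ∈ T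
  · rw [e1 S hjS, e1 T hjT]
    have hne : S.erase j ≠ T.erase j := by
      intro h2
      exact hST (by rw [← Finset.insert_erase hjS, ← Finset.insert_erase hjT, h2])
    rcases h _ (hsub S hS) _ (hsub T hT) hne with h1 | h1
    · left; omega
    · right; omega
  · rw [e1 S hjS, e0 T hjT]
    right
    have := hsmall T (hsub' T hT hjT)
    omega
  · rw [e0 S hjS, e1 T hjT]
    left
    have := hsmall S (hsub' S hS hjS)
    omega
  · rw [e0 S hjS, e0 T hjT]
    exact h S (hsub' S hS hjS) T (hsub' T hT hjT) hST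

/-- the value of a sum over `S`, `S ⊆ I`, with the value `u` in the direction `i0` -/
theorem sum_update_eq {i0 : ι} (t : ι → ℕ) (u : ℕ) (S : Finset ι) :
    ∑ i ∈ S, Function.update t i0 u i = (∑ i ∈ S.erase i0, t i) + if i0 ∈ S then u else 0 := by
  by_cases h : i0 ∈ S
  · rw [if_pos h]
    conv_lhs => rw [← Finset.insert_erase h]
    rw [Finset.sum_insert (Finset.notMem_erase i0 S), Function.update_self, add_comm]
    congr 1
    refine Finset.sum_congr rfl fun i hi => ?_
    rw [Function.update_of_ne (Finset.ne_of_mem_erase hi)]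
  · rw [if_neg h, Finset.erase_eq_of_notMem h, add_zero]
    refine Finset.sum_congr rfl fun i hi => ?_
    rw [Function.update_of_ne]
    rintro rfl
    exact h hi

theorem sum_ne {I : Finset ι} {i0 : ι} {t : ι → ℕ} (h : Sep I i0 t) {u : ℕ} (hu : 0 < u) (hu' : u ≤ t i0) {S T : Finset ι}
    (hS : S ⊆ I) (hT : T ⊆ I) (hST : S ≠ T) :
    ∑ i ∈ S, Function.update t i0 u i ≠ ∑ i ∈ T, Function.update t i0 u i := by
  rw [sum_update_eq, sum_update_eq]
  by_cases he : S.erase i0 = T.erase i0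
  · rw [he]
    have hmem : ¬ (i0 ∈ S ↔ i0 ∈ T) := by
      intro hiff
      apply hST
      by_cases h1 : i0 ∈ S
      · rw [← Finset.insert_erase h1, ← Finset.insert_erase (hiff.mp h1), he]
      · rw [← Finset.erase_eq_of_notMem h1, ← Finset.erase_eq_of_notMem (fun h2 => h1 (hiff.mpr h2)), he]
    by_cases h1 : i0 ∈ S <;> by_cases h2 : i0 ∈ T
    · exact absurd ⟨fun _ => h2, fun _ => h1⟩ hmem
    · rw [if_pos h1, if_neg h2]; omega
    · rw [if_neg h1, if_pos h2]; omega
    · exact absurd ⟨fun h3 => absurd h3 h1, fun h3 => absurd h3 h2⟩ hmem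
  · have h3 := h _ (Finset.erase_subset_erase i0 hS) _ (Finset.erase_subset_erase i0 hT) he
    rcases h3 with h3 | h3 <;> split_ifs <;> omega

end Pool.Agent.Lib.OD
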