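import Pool.Agent.Lib.MP_092512_nt.OD.Defs
import Pool.Agent.Lib.MP_092512_nt.OD.SL

/-!
# Odd products, module FS: the sieve for linear forms, and a bound for `Ω`
-/

set_option autoImplicit false

open Finset

namespace Pool.Agent.Lib.OD

theorem om_lt {z n m : ℕ} (hn : 0 < n) (h : YR z n) (hlt : n < (z + 1) ^ m) : ArithmeticFunction.cardFactors n < m := by
  have h1 : (z + 1) ^ (ArithmeticFunction.cardFactors n) ≤ n := by
    rw [ArithmeticFunction.cardFactors_apply]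
    conv_rhs => rw [← Nat.prod_primeFactorsList hn.ne']
    have : ∀ l : List ℕ, (∀ p ∈ l, z + 1 ≤ p) → (z + 1) ^ l.length ≤ l.prod := by
      intro l
      induction l with
      | nil => intro _; simp
      | cons a l ih =>
        intro hl
        rw [List.length_cons, List.prod_cons, pow_succ, mul_comm]
        exact Nat.mul_le_mul (hl a (by simp)) (ih fun p hp => hl p (by simp [hp]))
    refine this _ fun p hp => ?_
    exact h p (Nat.prime_of_mem_primeFactorsList hp) (Nat.dvd_of_mem_primeFactorsList hp)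
  by_contra hcon
  push Not at hcon
  have h2 : (z + 1) ^ m ≤ (z + 1) ^ (ArithmeticFunction.cardFactors n) := Nat.pow_le_pow_right (by omega) hcon
  omega

theorem card_roots (p : ℕ) (hp : p.Prime) (a b : ℕ) (ha : ¬ p ∣ a) :
    ((range p).filter fun r => p ∣ a * r + b).card ≤ 1 := by
  rw [Finset.card_le_one]
  intro r hr r' hr'
  rw [mem_filter, mem_range] at hr hr'
  have h1 : a * r + b ≡ a * r' + b [MOD p] :=
    ((Nat.modEq_zero_iff_dvd).mpr hr.2).trans ((Nat.modEq_zero_iff_dvd).mpr hr'.2).symm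
  have h2 : a * r ≡ a * r' [MOD p] := Nat.ModEq.add_right_cancel' b h1
  have h3 : r ≡ r' [MOD p] := Nat.ModEq.cancel_left_of_coprime ((Nat.Prime.coprime_iff_not_dvd hp).mpr ha) h2
  exact Nat.ModEq.eq_of_lt_of_lt h3 hr.1 hr'.1

open Classical in
theorem fs (J : ℕ) (hJ : 1 ≤ J) : ∃ C : ℕ, 1 ≤ C ∧ ∀ z : ℕ, 2 ≤ z → ∀ W : ℕ, 1 ≤ W →
    (∀ p : ℕ, p.Prime → p < 2 * J → p ∣ W) → ∀ F : Finset (ℕ × ℕ), F.card ≤ J →
    (∀ f ∈ F, 0 < f.1 ∧ W ∣ f.1 ∧ f.2.Coprime W) → ∀ X : ℕ, z ^ C ≤ X →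
    (X : ℝ) / (C * (Real.log z + 1) ^ C) ≤
      (((Finset.Ioc 0 X).filter fun T => ∀ f ∈ F, YR z ((f.1 * T + f.2) / Nat.gcd f.1 f.2)).card : ℝ) := by
  obtain ⟨C, hC, hsl⟩ := sl J hJ
  refine ⟨C, hC, fun z hz W hW hWp F hF hf X hX => ?_⟩
  set Z : ℕ → Finset ℕ := fun p => (range p).filter (fun r => p.Prime ∧ ∃ f ∈ F, ¬ p ∣ f.1 / Nat.gcd f.1 f.2 ∧
    p ∣ f.1 / Nat.gcd f.1 f.2 * r + f.2 / Nat.gcd f.1 f.2) with hZ
  have hZc : ∀ p, (Z p).card ≤ J := by
    intro p
    by_cases hp : p.Prime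
    · have h1 : Z p ⊆ F.biUnion (fun f => if p ∣ f.1 / Nat.gcd f.1 f.2 then ∅ else
          (range p).filter (fun r => p ∣ f.1 / Nat.gcd f.1 f.2 * r + f.2 / Nat.gcd f.1 f.2)) := by
        intro r hr
        obtain ⟨h2, -, f, h3, h4, h5⟩ := mem_filter.mp hr
        rw [mem_biUnion]
        refine ⟨f, h3, ?_⟩
        rw [if_neg h4]
        exact mem_filter.mpr ⟨h2, h5⟩
      refine (Finset.card_le_card h1).trans ((Finset.card_biUnion_le).trans ?_)
      refine le_trans (Finset.sum_le_sum (g := fun _ => 1) fun f _ => ?_) ?_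
      · by_cases h2 : p ∣ f.1 / Nat.gcd f.1 f.2
        · rw [if_pos h2]; simp
        · rw [if_neg h2]; exact card_roots p hp _ _ h2
      · rw [Finset.sum_const, smul_eq_mul, mul_one]; exact hF
    · have h1 : Z p = ∅ := by
        rw [Finset.filter_eq_empty_iff]
        intro r _ h2
        exact hp h2.1
      rw [h1]; simp
  have h1 := hsl z hz 1 le_rfl 0 Z hZc 0 X (by rw [one_mul, zero_add]; exact hX)
  have h2 : ((X : ℝ) - (0 : ℕ)) / ((1 : ℕ) * (C * (Real.log z + 1) ^ C)) = X / (C * (Real.log z + 1) ^ C) := by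
    push_cast
    rw [sub_zero, one_mul]
  rw [h2] at h1
  refine h1.trans ?_
  have h3 : ((Finset.Ioc 0 X).filter fun n => n ≡ 0 [MOD 1] ∧
        ∀ p : ℕ, p.Prime → 2 * J ≤ p → p ≤ z → ¬ p ∣ 1 → n % p ∉ Z p).card ≤
      ((Finset.Ioc 0 X).filter fun T => ∀ f ∈ F, YR z ((f.1 * T + f.2) / Nat.gcd f.1 f.2)).card := by
    refine Finset.card_le_card fun T hT => ?_
    obtain ⟨hT1, -, hT2⟩ := mem_filter.mp hT
    refine mem_filter.mpr ⟨hT1, fun f hfF p hp hpd => ?_⟩
    obtain ⟨f1, f2, f3⟩ := hf f hfF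
    by_contra hcon
    push Not at hcon
    have hg : 0 < Nat.gcd f.1 f.2 := Nat.gcd_pos_of_pos_left _ f1
    obtain ⟨a, b, hab, ha, hb⟩ := Nat.exists_coprime f.1 f.2
    have ea : f.1 / Nat.gcd f.1 f.2 = a := Nat.div_eq_of_eq_mul_left hg ha
    have eb : f.2 / Nat.gcd f.1 f.2 = b := Nat.div_eq_of_eq_mul_left hg hb
    have ec : (f.1 * T + f.2) / Nat.gcd f.1 f.2 = a * T + b := by
      refine Nat.div_eq_of_eq_mul_left hg ?_
      calc f.1 * T + f.2 = a * Nat.gcd f.1 f.2 * T + b * Nat.gcd f.1 f.2 := by rw [← ha, ← hb]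
        _ = (a * T + b) * Nat.gcd f.1 f.2 := by ring
    rw [ec] at hpd
    by_cases hJp : 2 * J ≤ p
    · have h5 := hT2 p hp hJp hcon (by rw [Nat.dvd_one]; exact hp.ne_one)
      apply h5
      rw [hZ]
      refine mem_filter.mpr ⟨mem_range.mpr (Nat.mod_lt _ hp.pos), hp, f, hfF, ?_, ?_⟩
      · rw [ea]
        intro h6
        have h7 : p ∣ b := (Nat.dvd_add_right (Dvd.dvd.mul_right h6 T)).mp hpd
        have h8 := Nat.dvd_gcd h6 h7
        rw [hab.gcd_eq_one, Nat.dvd_one] at h8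
        exact hp.ne_one h8
      · rw [ea, eb]
        have h6 : a * (T % p) + b ≡ a * T + b [MOD p] := ((Nat.mod_modEq T p).mul_left a).add_right b
        exact (Nat.modEq_zero_iff_dvd).mp (h6.trans ((Nat.modEq_zero_iff_dvd).mpr hpd))
    · have h5 := hWp p hp (by omega)
      have h6 : p ∣ f.1 := h5.trans f2
      have h7 : p ∣ f.1 * T + f.2 := by
        have : f.1 * T + f.2 = (a * T + b) * Nat.gcd f.1 f.2 := by
          have := Nat.div_mul_cancel (show Nat.gcd f.1 f.2 ∣ f.1 * T + f.2 from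
            (Dvd.dvd.mul_right (Nat.gcd_dvd_left _ _) T).add (Nat.gcd_dvd_right _ _))
          rw [ec] at this
          exact this.symm
        rw [this]
        exact Dvd.dvd.mul_right hpd _
      have h8 : p ∣ f.2 := (Nat.dvd_add_right (Dvd.dvd.mul_right h6 T)).mp h7
      have h9 := Nat.dvd_gcd h8 h5
      rw [f3.gcd_eq_one, Nat.dvd_one] at h9
      exact hp.ne_one h9
  exact_mod_cast h3

end Pool.Agent.Lib.OD
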