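import Pool.Agent.Lib.MP_092512_nt.OD.CR
import Pool.Agent.Lib.MP_092512_nt.OD.FS

/-!
# Odd products, module CP: the linear forms of the copies
-/

set_option autoImplicit false

open Finset

namespace Pool.Agent.Lib.OD

open ArithmeticFunction (cardFactors)

/-- admissible tuples have a class modulo `W` in which all members are coprime to `W` -/
theorem adm_class {ι : Type*} (h : ι → ℕ) (hadm : ∀ p : ℕ, p.Prime → ∃ r : ℕ, ∀ l, ¬ p ∣ r + h l) (W : ℕ) (hW : 1 ≤ W) :
    ∃ n0 : ℕ, ∀ l, (n0 + h l).Coprime W := by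
  classical
  choose! r hr using hadm
  obtain ⟨n0, hn0⟩ := Nat.chineseRemainderOfFinset r (fun p => p) W.primeFactors
    (fun p hp => (Nat.prime_of_mem_primeFactors hp).ne_zero) (fun p hp q hq hpq =>
      (Nat.coprime_primes (Nat.prime_of_mem_primeFactors hp) (Nat.prime_of_mem_primeFactors hq)).mpr hpq)
  refine ⟨n0, fun l => ?_⟩
  refine Nat.coprime_of_dvd fun p hp h1 h2 => ?_
  have hpW : p ∈ W.primeFactors := Nat.mem_primeFactors.mpr ⟨hp, h2, by omega⟩
  have h3 : n0 + h l ≡ r p + h l [MOD p] := (hn0 p hpW).add_right _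
  exact hr p hp l ((Nat.modEq_zero_iff_dvd).mp (h3.symm.trans ((Nat.modEq_zero_iff_dvd).mpr h1)))

theorem omega_prod_le {α : Type*} (s : Finset α) (f : α → ℕ) (hf : ∀ a ∈ s, 0 < f a) (A : ℕ)
    (hA : ∀ a ∈ s, cardFactors (f a) ≤ A) : cardFactors (∏ a ∈ s, f a) ≤ s.card * A := by
  classical
  induction s using Finset.induction_on with
  | empty => simp
  | insert a s ha ih =>
    rw [Finset.prod_insert ha, ArithmeticFunction.cardFactors_mul (hf a (mem_insert_self _ _)).ne'
      (Finset.prod_ne_zero_iff.mpr fun b hb => (hf b (mem_insert_of_mem hb)).ne'), Finset.card_insert_of_notMem ha]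
    have h1 := hA a (mem_insert_self _ _)
    have h2 := ih (fun b hb => hf b (mem_insert_of_mem hb)) (fun b hb => hA b (mem_insert_of_mem hb))
    calc cardFactors (f a) + cardFactors (∏ x ∈ s, f x) ≤ A + s.card * A := Nat.add_le_add h1 h2
      _ = (s.card + 1) * A := by ring

variable {ι : Type*} [DecidableEq ι]

theorem copies {I : Finset ι} {W Y A : ℕ} (hW : 1 ≤ W) {c : ℕ} {t : ι → ℕ} (hc : Cube W Y (Y ^ A) I c t) {h : ι → ℕ}
    {n0 : ℕ} (hn0 : ∀ l, (n0 + h l).Coprime W) {H : ℕ} (hH : ∀ l, h l ≤ H) :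
    ∃ (a b : Finset ι → ℕ) (B Q : ℕ), 0 < Q ∧ Q ≤ W * (Y ^ A) ^ (2 ^ I.card) ∧ B ≤ Y ^ A * (H + 1) + Q ∧ ∀ S ⊆ I,
      0 < a S ∧ W ∣ a S ∧ (∀ l, (b S + h l).Coprime W) ∧ cv c t S * a S = Q ∧
      cv c t S * b S + ∑ i ∈ S, t i * h i = B ∧ cardFactors (a S) ≤ cardFactors W + 2 ^ I.card * A ∧
      (∀ p : ℕ, p.Prime → p ∣ a S → p ∣ W ∨ Y < p) := by
  obtain ⟨B, hB1, hB2, hB3, hB4⟩ := exists_B hW hc n0 h (Y ^ A * (H + 1))
  have hpos : ∀ S : Finset ι, 0 < cv c t S := fun S => by
    have := hc.one_lt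
    unfold cv
    omega
  have hu : ∀ S ⊆ I, ∑ i ∈ S, t i * h i ≤ B := by
    intro S hS
    have h1 : ∑ i ∈ S, t i * h i ≤ (∑ i ∈ S, t i) * H := by
      rw [Finset.sum_mul]
      exact Finset.sum_le_sum fun i _ => Nat.mul_le_mul_left _ (hH i)
    have h2 : ∑ i ∈ S, t i ≤ Y ^ A := by
      have := hc.le S hS
      unfold cv at this
      omega
    calc ∑ i ∈ S, t i * h i ≤ (∑ i ∈ S, t i) * H := h1
      _ ≤ Y ^ A * H := Nat.mul_le_mul_right _ h2
      _ ≤ Y ^ A * (H + 1) := Nat.mul_le_mul_left _ (by omega)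
      _ ≤ B := hB1
  have hex : ∀ S : Finset ι, ∃ b : ℕ, S ⊆ I → cv c t S * b + ∑ i ∈ S, t i * h i = B := by
    intro S
    by_cases hS : S ⊆ I
    · have h1 := (Nat.modEq_iff_dvd' (hu S hS)).mp (hB4 S hS).symm
      obtain ⟨b, hb⟩ := h1
      refine ⟨b, fun _ => ?_⟩
      have := hu S hS
      omega
    · exact ⟨0, fun h1 => absurd h1 hS⟩
  choose b hb using hex
  refine ⟨fun S => W * ∏ T ∈ I.powerset.erase S, cv c t T, b, B, QQ W I c t, ?_, ?_, hB2, fun S hS => ?_⟩
  · exact Nat.mul_pos hW (Finset.prod_pos fun S _ => hpos S)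
  · unfold QQ
    refine Nat.mul_le_mul_left _ ?_
    calc ∏ S ∈ I.powerset, cv c t S ≤ ∏ _S ∈ I.powerset, Y ^ A :=
          Finset.prod_le_prod' fun S hS => hc.le S (mem_powerset.mp hS)
      _ = (Y ^ A) ^ (2 ^ I.card) := by rw [Finset.prod_const, Finset.card_powerset]
  · have hSp : S ∈ I.powerset := mem_powerset.mpr hS
    have hap : 0 < ∏ T ∈ I.powerset.erase S, cv c t T := Finset.prod_pos fun T _ => hpos T
    refine ⟨Nat.mul_pos hW hap, dvd_mul_right _ _, fun l => ?_, ?_, hb S hS, ?_, ?_⟩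
    · -- `b S ≡ n0` modulo `W`
      have h1 : ∑ i ∈ S, t i * h i ≡ 0 [MOD W] :=
        (Nat.modEq_zero_iff_dvd).mpr (Finset.dvd_sum fun i hi => Dvd.dvd.mul_right (hc.wt i (hS hi)) _)
      have h2 : cv c t S * b S + ∑ i ∈ S, t i * h i ≡ 1 * b S + 0 [MOD W] :=
        ((cv_modEq hc hS).mul_right (b S)).add h1
      rw [hb S hS, one_mul, add_zero] at h2
      have h3 : b S + h l ≡ n0 + h l [MOD W] := (h2.symm.trans hB3).add_right _
      have h4 := h3.gcd_eq
      rw [Nat.coprime_iff_gcd_eq_one, h4]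
      exact hn0 l
    · unfold QQ
      rw [← Finset.mul_prod_erase _ _ hSp]
      ring
    · rw [ArithmeticFunction.cardFactors_mul (by omega) hap.ne']
      refine Nat.add_le_add_left ?_ _
      refine (omega_prod_le _ _ (fun T _ => hpos T) A fun T hT => ?_).trans ?_
      · have hT' := mem_powerset.mp (Finset.mem_of_mem_erase hT)
        have h1 := hc.le T hT'
        have h2 := hc.yr T hT'
        have h3 : cv c t T < (Y + 1) ^ (A + 1) := by
          calc cv c t T ≤ Y ^ A := h1
            _ ≤ (Y + 1) ^ A := Nat.pow_le_pow_left (by omega) _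
            _ < (Y + 1) ^ (A + 1) := by
                have hYp : 0 < Y := by
                  by_contra h0
                  have h0' : Y = 0 := by omega
                  subst h0'
                  have h4 := hc.one_lt
                  have h5 := hc.le ∅ (Finset.empty_subset _)
                  unfold cv at h5
                  rw [Finset.sum_empty, add_zero] at h5
                  rcases Nat.eq_zero_or_pos A with h6 | h6
                  · rw [h6] at h5; omega
                  · rw [Nat.zero_pow h6] at h5; omega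
                exact Nat.pow_lt_pow_right (by omega) (by omega)
        have h4 := om_lt (hpos T) h2 h3
        omega
      · refine Nat.mul_le_mul_right _ ?_
        refine (Finset.card_le_card (Finset.erase_subset _ _)).trans ?_
        rw [Finset.card_powerset]
    · intro p hp hpd
      rcases (hp.dvd_mul).mp hpd with h1 | h1
      · exact Or.inl h1
      · obtain ⟨T, hT, h2⟩ := (Prime.dvd_finsetProd_iff hp.prime _).mp h1
        exact Or.inr (hc.yr T (mem_powerset.mp (Finset.mem_of_mem_erase hT)) p hp h2)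

end Pool.Agent.Lib.OD
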