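import Pool.Agent.Lib.MP_092512_nt.OD.CB

/-!
# Odd products, module CR: the copies `n_S` and the product identity
-/

set_option autoImplicit false

open Finset

namespace Pool.Agent.Lib.OD

variable {ι : Type*} [DecidableEq ι]

theorem cv_modEq {W Y D : ℕ} {I : Finset ι} {c : ℕ} {t : ι → ℕ} (hc : Cube W Y D I c t) {S : Finset ι} (hS : S ⊆ I) :
    cv c t S ≡ 1 [MOD W] := by
  have h1 : ∑ i ∈ S, t i ≡ 0 [MOD W] :=
    (Nat.modEq_zero_iff_dvd).mpr (Finset.dvd_sum fun i hi => hc.wt i (hS hi))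
  have h2 := hc.w1.add h1
  simpa [cv] using h2

theorem cv_coprime {W Y D : ℕ} {I : Finset ι} {c : ℕ} {t : ι → ℕ} (hc : Cube W Y D I c t) {S : Finset ι} (hS : S ⊆ I) :
    (cv c t S).Coprime W := by
  have h := (cv_modEq hc hS).gcd_eq
  rw [Nat.gcd_one_left] at h
  exact h

/-- the modulus -/
def QQ (W : ℕ) (I : Finset ι) (c : ℕ) (t : ι → ℕ) : ℕ := W * ∏ S ∈ I.powerset, cv c t S

theorem exists_B {W Y D : ℕ} {I : Finset ι} {c : ℕ} {t : ι → ℕ} (hW : 1 ≤ W) (hc : Cube W Y D I c t) (n0 : ℕ)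
    (h : ι → ℕ) (L : ℕ) : ∃ B : ℕ, L ≤ B ∧ B ≤ L + QQ W I c t ∧ B ≡ n0 [MOD W] ∧
      ∀ S ⊆ I, B ≡ ∑ i ∈ S, t i * h i [MOD cv c t S] := by
  have hpos : ∀ S : Finset ι, 0 < cv c t S := fun S => by
    have := hc.one_lt
    unfold cv
    omega
  obtain ⟨b1, hb1⟩ := Nat.chineseRemainderOfFinset (fun S : Finset ι => ∑ i ∈ S, t i * h i) (fun S => cv c t S)
    I.powerset (fun S _ => (hpos S).ne') (fun S hS T hT hST =>
      hc.cop S (mem_powerset.mp hS) T (mem_powerset.mp hT) hST)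
  have hcop : W.Coprime (∏ S ∈ I.powerset, cv c t S) :=
    Nat.Coprime.prod_right fun S hS => (cv_coprime hc (mem_powerset.mp hS)).symm
  obtain ⟨b2, hb2, hb3⟩ := Nat.chineseRemainder hcop n0 b1
  have hQ : 0 < QQ W I c t := Nat.mul_pos hW (Finset.prod_pos fun S _ => hpos S)
  have hB : L + (b2 + QQ W I c t * L - L) % QQ W I c t ≡ b2 [MOD QQ W I c t] := by
    have h1 : (b2 + QQ W I c t * L - L) % QQ W I c t ≡ b2 + QQ W I c t * L - L [MOD QQ W I c t] := Nat.mod_modEq _ _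
    have h2 : L + (b2 + QQ W I c t * L - L) = b2 + QQ W I c t * L := by
      have : L ≤ QQ W I c t * L := Nat.le_mul_of_pos_left _ hQ
      omega
    have h3 := h1.add_left L
    rw [h2] at h3
    refine h3.trans ?_
    have h4 : QQ W I c t * L ≡ 0 [MOD QQ W I c t] := (Nat.modEq_zero_iff_dvd).mpr (dvd_mul_right _ _)
    simpa using h4.add_left b2
  refine ⟨L + (b2 + QQ W I c t * L - L) % QQ W I c t, by omega, ?_, ?_, fun S hS => ?_⟩
  · have := Nat.mod_lt (b2 + QQ W I c t * L - L) hQ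
    omega
  · exact (hB.of_dvd (dvd_mul_right _ _)).trans hb2
  · have hd : cv c t S ∣ ∏ T ∈ I.powerset, cv c t T := Finset.dvd_prod_of_mem _ (mem_powerset.mpr hS)
    refine (hB.of_dvd (hd.trans (dvd_mul_left _ _))).trans ?_
    exact (hb3.of_dvd hd).trans (hb1 S (mem_powerset.mpr hS))

/-- the product identity for one direction -/
theorem prod_dir {I : Finset ι} {c : ℕ} {t h : ι → ℕ} {N : ℕ} {n : Finset ι → ℕ} (hc : 0 < c) (hn : ∀ S ⊆ I, 0 < n S)
    (hN : ∀ S ⊆ I, cv c t S * n S + ∑ i ∈ S, t i * h i = N) {i : ι} (hi : i ∈ I) :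
    ∏ S ∈ I.powerset, (lam (cv c t S) * lam (n S + h i)) = 1 := by
  have h0 : ∀ S ⊆ I, lam (cv c t S) * lam (n S + h i) = lam (cv c t S * (n S + h i)) := by
    intro S hS
    rw [lam_mul]
    · unfold cv; omega
    · have := hn S hS; omega
  have e : I.powerset = (insert i (I.erase i)).powerset := by rw [Finset.insert_erase hi]
  rw [e, Finset.prod_powerset_insert (Finset.notMem_erase i I), ← Finset.prod_mul_distrib]
  refine Finset.prod_eq_one fun S hS => ?_
  have hS' : S ⊆ I.erase i := mem_powerset.mp hS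
  have hSI : S ⊆ I := hS'.trans (Finset.erase_subset _ _)
  have hiS : i ∉ S := fun h1 => Finset.notMem_erase i I (hS' h1)
  have hiI : insert i S ⊆ I := Finset.insert_subset hi hSI
  rw [h0 S hSI, h0 _ hiI]
  have h1 := hN S hSI
  have h2 := hN _ hiI
  rw [Finset.sum_insert hiS] at h2
  have h3 : cv c t (insert i S) * (n (insert i S) + h i) = cv c t S * (n S + h i) := by
    have h4 : cv c t (insert i S) = cv c t S + t i := cv_insert hiS
    have h5 : cv c t (insert i S) * h i = cv c t S * h i + t i * h i := by rw [h4]; ring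
    rw [mul_add, mul_add, h5]
    omega
  rw [h3]
  exact lam_sq _

/-- **The parity lemma**: both parities occur among the copies. -/
theorem exists_par {I : Finset ι} {c : ℕ} {t h : ι → ℕ} {N : ℕ} {n : Finset ι → ℕ} (hc : 0 < c) (hn : ∀ S ⊆ I, 0 < n S)
    (hN : ∀ S ⊆ I, cv c t S * n S + ∑ i ∈ S, t i * h i = N) (hodd : Odd I.card) (hPr : Pr I c t = -1) (r : ℕ)
    (hr : r < 2) : ∃ S ⊆ I, (∑ i ∈ I, ArithmeticFunction.cardFactors (n S + h i)) % 2 = r := by
  have h1 : ∏ i ∈ I, ∏ S ∈ I.powerset, (lam (cv c t S) * lam (n S + h i)) = 1 :=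
    Finset.prod_eq_one fun i hi => prod_dir hc hn hN hi
  have h2 : (∏ i ∈ I, ∏ S ∈ I.powerset, (lam (cv c t S) * lam (n S + h i))) =
      (Pr I c t) ^ I.card * ∏ S ∈ I.powerset, ∏ i ∈ I, lam (n S + h i) := by
    simp_rw [Finset.prod_mul_distrib]
    rw [Finset.prod_const]
    congr 1
    exact Finset.prod_comm
  rw [h2, hPr, hodd.neg_one_pow] at h1
  have h3 : ∏ S ∈ I.powerset, ∏ i ∈ I, lam (n S + h i) = -1 := by linarith
  have h4 : ∀ S : Finset ι, ∏ i ∈ I, lam (n S + h i) = (-1) ^ (∑ i ∈ I, ArithmeticFunction.cardFactors (n S + h i)) := by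
    intro S
    unfold lam
    rw [Finset.prod_pow_eq_pow_sum]
  by_contra hcon
  push Not at hcon
  have h5 : ∀ S ∈ I.powerset, ∏ i ∈ I, lam (n S + h i) = (-1) ^ (1 - r) := by
    intro S hS
    rw [h4]
    have h6 := hcon S (mem_powerset.mp hS)
    have h7 := Nat.mod_lt (∑ i ∈ I, ArithmeticFunction.cardFactors (n S + h i)) (show 0 < 2 by norm_num)
    have h8 : (∑ i ∈ I, ArithmeticFunction.cardFactors (n S + h i)) % 2 = 1 - r := by omega
    have h9 : (∑ i ∈ I, ArithmeticFunction.cardFactors (n S + h i)) =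
        2 * ((∑ i ∈ I, ArithmeticFunction.cardFactors (n S + h i)) / 2) + (1 - r) := by omega
    rw [h9, pow_add, pow_mul]
    norm_num
  rw [Finset.prod_congr rfl h5, Finset.prod_const, Finset.card_powerset] at h3
  have hI : I.card ≠ 0 := by
    intro h6
    rw [h6] at hodd
    exact (Nat.not_odd_zero) hodd
  obtain ⟨m, hm⟩ := Nat.exists_eq_succ_of_ne_zero hI
  have h7 : (((-1 : ℤ) ^ (1 - r)) ^ 2) = 1 := by
    rw [← pow_mul, mul_comm, pow_mul]
    norm_num
  have h8 : ((-1 : ℤ) ^ (1 - r)) ^ 2 ^ I.card = 1 := by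
    rw [hm, Nat.succ_eq_add_one, pow_succ 2 m, mul_comm, pow_mul, h7, one_pow]
  rw [h8] at h3
  norm_num at h3

end Pool.Agent.Lib.OD
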