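import Mathlib

/-!
# Odd products: definitions (text /team-store/OD.md)
-/

set_option autoImplicit false

open Finset

namespace Pool.Agent.Lib.OD

/-- all prime factors of `n` are larger than `Y` -/
def YR (Y n : ℕ) : Prop := ∀ p : ℕ, p.Prime → p ∣ n → Y < p

/-- the Liouville function -/
def lam (n : ℕ) : ℤ := (-1) ^ (ArithmeticFunction.cardFactors n)

/-- the vertices of a cube -/
def cv {ι : Type*} (c : ℕ) (t : ι → ℕ) (S : Finset ι) : ℕ := c + ∑ i ∈ S, t i

/-- the product of the Liouville function over the vertices of a cube -/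
def Pr {ι : Type*} (I : Finset ι) (c : ℕ) (t : ι → ℕ) : ℤ := ∏ S ∈ I.powerset, lam (cv c t S)

/-- a cube of pairwise coprime numbers without prime factors `≤ Y` -/
structure Cube {ι : Type*} (W Y D : ℕ) (I : Finset ι) (c : ℕ) (t : ι → ℕ) : Prop where
  one_lt : 1 < c
  wt : ∀ i ∈ I, W ∣ t i
  w1 : c ≡ 1 [MOD W]
  yr : ∀ S ⊆ I, YR Y (cv c t S)
  le : ∀ S ⊆ I, cv c t S ≤ D
  cop : ∀ S ⊆ I, ∀ T ⊆ I, S ≠ T → (cv c t S).Coprime (cv c t T)

theorem lam_sq (n : ℕ) : lam n * lam n = 1 := by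
  unfold lam
  rw [← mul_pow]
  norm_num

theorem lam_mul {m n : ℕ} (hm : m ≠ 0) (hn : n ≠ 0) : lam (m * n) = lam m * lam n := by
  unfold lam
  rw [ArithmeticFunction.cardFactors_mul hm hn, pow_add]

theorem lam_prime {p : ℕ} (hp : p.Prime) : lam p = -1 := by
  unfold lam
  rw [ArithmeticFunction.cardFactors_apply_prime hp, pow_one]

theorem Pr_sq {ι : Type*} (I : Finset ι) (c : ℕ) (t : ι → ℕ) : Pr I c t * Pr I c t = 1 := by
  unfold Pr
  rw [← Finset.prod_mul_distrib]
  exact Finset.prod_eq_one fun S _ => lam_sq _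

end Pool.Agent.Lib.OD
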