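import Pool.Agent.Lib.MP_092512_nt.OD.CE
import Pool.Agent.Lib.MP_092512_nt.OD.CP

/-!
# Odd products, module FN: Theorem O
-/

set_option autoImplicit false

open Finset

namespace Pool.Agent.Lib.OD

open ArithmeticFunction (cardFactors)

/-- the root `z`: `z ^ m ≤ x < (z + 1) ^ m` and `Y ≤ z` -/
theorem exists_root {m Y x : ℕ} (hm : 1 ≤ m) (hY : Y ^ m ≤ x) (hY1 : 1 ≤ Y) :
    ∃ z : ℕ, z ^ m ≤ x ∧ x < (z + 1) ^ m ∧ Y ≤ z ∧ z ≤ x := by
  have hYx : Y ≤ x := le_trans (Nat.le_self_pow (by omega) Y) hY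
  refine ⟨Nat.findGreatest (fun z => z ^ m ≤ x) x, ?_, ?_, ?_, Nat.findGreatest_le _⟩
  · exact Nat.findGreatest_spec (P := fun z => z ^ m ≤ x) hYx hY
  · by_contra hcon
    push Not at hcon
    have h1 : Nat.findGreatest (fun z => z ^ m ≤ x) x + 1 ≤ x := le_trans (Nat.le_self_pow (by omega) _) hcon
    have h2 := Nat.le_findGreatest (P := fun z => z ^ m ≤ x) h1 hcon
    omega
  · exact Nat.le_findGreatest (P := fun z => z ^ m ≤ x) hYx hY

theorem omega_le_of_dvd {g a : ℕ} (ha : 0 < a) (h : g ∣ a) : cardFactors g ≤ cardFactors a := by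
  obtain ⟨w, rfl⟩ := h
  rw [ArithmeticFunction.cardFactors_mul (by rintro rfl; simp at ha) (by rintro rfl; simp at ha)]
  omega

open Classical in
theorem odd_products (k : ℕ) (h : Fin k → ℕ) (hadm : ∀ p : ℕ, p.Prime → ∃ r : ℕ, ∀ l, ¬ p ∣ r + h l)
    (I : Finset (Fin k)) (hI : Odd I.card) : ∃ C : ℕ, 1 ≤ C ∧ ∀ Y x : ℕ, C ≤ Y → Y ^ C ≤ x → ∀ r : ℕ, r < 2 →
    (x : ℝ) / (Y * Real.log x) ^ C ≤ (((Finset.Icc 1 x).filter fun n =>
      (∀ l, YR Y (n + h l) ∧ cardFactors (n + h l) < C) ∧ (∑ i ∈ I, cardFactors (n + h i)) % 2 = r).card : ℝ) := by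
  have hIn : I.Nonempty := by
    rw [← Finset.card_pos]
    exact hI.pos
  obtain ⟨i1, hi1⟩ := hIn
  have hk : 1 ≤ k := by
    have := i1.2
    omega
  obtain ⟨P2, hP2⟩ : ∃ P2, P2 = 2 ^ I.card := ⟨_, rfl⟩
  have hP2p : 1 ≤ P2 := by rw [hP2]; exact Nat.one_le_two_pow
  have hJ : 1 ≤ P2 * k := Nat.mul_pos hP2p hk
  obtain ⟨W, hWdef⟩ : ∃ W, W = (2 ^ (I.card + 4) * (k + 1)).factorial := ⟨_, rfl⟩
  have hW : 1 ≤ W := by rw [hWdef]; exact Nat.factorial_pos _
  have h16 : 2 ^ (I.card + 4) = 16 * P2 := by rw [pow_add, hP2]; ring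
  have hWp : ∀ p : ℕ, p.Prime → p ≤ 2 ^ (I.card + 4) * (k + 1) → p ∣ W := by
    intro p hp hle
    rw [hWdef]
    exact (hp.dvd_factorial).mpr hle
  obtain ⟨C1, hC1, hfs⟩ := fs (P2 * k) hJ
  obtain ⟨A, Y0, hcubes⟩ := cube_exists I ⟨i1, hi1⟩ W hW (fun p hp hlt => hWp p hp (by nlinarith)) 0
  obtain ⟨n0, hn0⟩ := adm_class h hadm W hW
  obtain ⟨H, hH⟩ : ∃ H : ℕ, ∀ l, h l ≤ H :=
    ⟨∑ l, h l, fun l => Finset.single_le_sum (f := h) (fun _ _ => Nat.zero_le _) (mem_univ l)⟩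
  obtain ⟨E0, hE0⟩ : ∃ E0, E0 = A * P2 + 1 := ⟨_, rfl⟩
  obtain ⟨K1, hK1⟩ : ∃ K1, K1 = 4 * P2 * C1 * 2 ^ C1 := ⟨_, rfl⟩
  refine ⟨W + H + Y0 + K1 + 2 * E0 + A + 8 * C1 + cardFactors W + P2 * A + 20, by omega, fun Y x hY hx r hr => ?_⟩
  obtain ⟨C, hC⟩ : ∃ C, C = W + H + Y0 + K1 + 2 * E0 + A + 8 * C1 + cardFactors W + P2 * A + 20 := ⟨_, rfl⟩
  rw [← hC] at hY hx ⊢
  have hYpos : 0 < Y := by omega
  have hpow : ∀ e f : ℕ, e ≤ f → Y ^ e ≤ Y ^ f := fun e f hef => Nat.pow_le_pow_right hYpos hef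
  have hxY : Y ≤ x := le_trans (Nat.le_self_pow (by omega) Y) hx
  obtain ⟨z, hz1, hz2, hYz, hzx⟩ := exists_root (m := 4 * C1) (Y := Y) (x := x) (by omega)
    ((hpow _ _ (by omega)).trans hx) hYpos
  obtain ⟨c, t, i0, hi0, hcube, -, -, hPr⟩ := hcubes Y (by omega)
  obtain ⟨a, b, B, Q, hQ0, hQ, hB, hab⟩ := copies hW hcube hn0 hH
  rw [← hP2] at hQ hab
  have hc0 : 0 < c := by have := hcube.one_lt; omega
  -- sizes
  have hQ1 : Q ≤ Y ^ E0 := by
    calc Q ≤ W * (Y ^ A) ^ P2 := hQ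
      _ ≤ Y * Y ^ (A * P2) := by rw [← pow_mul]; exact Nat.mul_le_mul_right _ (by omega)
      _ = Y ^ E0 := by rw [hE0, pow_succ, mul_comm]
  have h2B : 2 * B ≤ x := by
    have h1 : Y ^ A * (H + 1) ≤ Y ^ (A + E0 + 1) := by
      calc Y ^ A * (H + 1) ≤ Y ^ A * Y := Nat.mul_le_mul_left _ (by omega)
        _ = Y ^ (A + 1) := by rw [pow_succ]
        _ ≤ Y ^ (A + E0 + 1) := hpow _ _ (by omega)
    have h2 : Q ≤ Y ^ (A + E0 + 1) := hQ1.trans (hpow _ _ (by omega))
    have h3 : 4 * Y ^ (A + E0 + 1) ≤ x := by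
      calc 4 * Y ^ (A + E0 + 1) ≤ Y * Y ^ (A + E0 + 1) := Nat.mul_le_mul_right _ (by omega)
        _ = Y ^ (A + E0 + 2) := by rw [← pow_succ']
        _ ≤ Y ^ C := hpow _ _ (by omega)
        _ ≤ x := hx
    omega
  have h2Q : (2 * Q) * (2 * Q) ≤ x := by
    calc (2 * Q) * (2 * Q) = 4 * (Q * Q) := by ring
      _ ≤ Y * (Y ^ E0 * Y ^ E0) := Nat.mul_le_mul (by omega) (Nat.mul_le_mul hQ1 hQ1)
      _ = Y ^ (2 * E0 + 1) := by rw [← pow_add, ← pow_succ']; congr 1; ring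
      _ ≤ Y ^ C := hpow _ _ (by omega)
      _ ≤ x := hx
  obtain ⟨X, hXdef⟩ : ∃ X, X = x / (2 * Q) := ⟨_, rfl⟩
  have hX1 : 2 * Q * X ≤ x := by rw [hXdef]; exact Nat.mul_div_le x (2 * Q)
  have hX2 : x < 2 * Q * (X + 1) := by rw [hXdef]; exact Nat.lt_mul_div_succ x (by omega)
  have hX3 : 2 * Q < X + 1 := by
    by_contra hcon
    push Not at hcon
    have : 2 * Q * (X + 1) ≤ 2 * Q * (2 * Q) := Nat.mul_le_mul_left _ hcon
    omega
  have hX4 : z ^ (2 * C1) ≤ X := by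
    by_contra hcon
    push Not at hcon
    have h1 : (X + 1) * (X + 1) ≤ z ^ (2 * C1) * z ^ (2 * C1) := Nat.mul_le_mul hcon hcon
    have h2 : z ^ (2 * C1) * z ^ (2 * C1) = z ^ (4 * C1) := by rw [← pow_add]; congr 1; ring
    have h3 : 2 * Q * (X + 1) ≤ (X + 1) * (X + 1) := Nat.mul_le_mul_right _ hX3.le
    omega
  have hz2' : 2 ≤ z := by omega
  have hX5 : z ^ C1 ≤ X := (Nat.pow_le_pow_right (by omega) (by omega)).trans hX4
  have hXp : 1 ≤ X := le_trans (Nat.one_le_pow _ _ (by omega)) hX5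
  -- the forms
  obtain ⟨F, hF⟩ : ∃ F : Finset (ℕ × ℕ), F = (I.powerset ×ˢ (univ : Finset (Fin k))).image
    (fun y => (a y.1, b y.1 + h y.2)) := ⟨_, rfl⟩
  have hFc : F.card ≤ P2 * k := by
    rw [hF]
    refine Finset.card_image_le.trans ?_
    rw [Finset.card_product, Finset.card_powerset, Finset.card_univ, Fintype.card_fin, hP2]
  have hFp : ∀ f ∈ F, 0 < f.1 ∧ W ∣ f.1 ∧ f.2.Coprime W := by
    intro f hf
    rw [hF, mem_image] at hf
    obtain ⟨⟨S, l⟩, hSl, rfl⟩ := hf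
    have hS := mem_powerset.mp (mem_product.mp hSl).1
    obtain ⟨h1, h2, h3, -⟩ := hab S hS
    exact ⟨h1, h2, h3 l⟩
  have hWp2 : ∀ p : ℕ, p.Prime → p < 2 * (P2 * k) → p ∣ W := fun p hp hlt => hWp p hp (by rw [h16]; nlinarith)
  have hcount := hfs z hz2' W hW hWp2 F hFc hFp X hX5
  obtain ⟨good, hgood⟩ : ∃ good : Finset ℕ, good = (Finset.Ioc 0 X).filter
    (fun T => ∀ f ∈ F, YR z ((f.1 * T + f.2) / Nat.gcd f.1 f.2)) := ⟨_, rfl⟩
  rw [← hgood] at hcount
  obtain ⟨Tg, hTg⟩ : ∃ Tg : Finset ℕ, Tg = (Finset.Icc 1 x).filter fun n =>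
      (∀ l, YR Y (n + h l) ∧ cardFactors (n + h l) < C) ∧ (∑ i ∈ I, cardFactors (n + h i)) % 2 = r := ⟨_, rfl⟩
  rw [← hTg]
  have hcard : good.card ≤ P2 * Tg.card := by
    have h1 : good ⊆ I.powerset.biUnion (fun S => (Finset.Ioc 0 X).filter (fun T => S ⊆ I ∧ b S + a S * T ∈ Tg)) := by
      intro T hT
      rw [hgood, mem_filter, mem_Ioc] at hT
      obtain ⟨⟨hT0, hTX⟩, hT1⟩ := hT
      have hN : ∀ S ⊆ I, cv c t S * (b S + a S * T) + ∑ i ∈ S, t i * h i = B + Q * T := by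
        intro S hS
        obtain ⟨h1, h2, h3, h4, h5, -⟩ := hab S hS
        rw [← h5, ← h4]
        ring
      have hn : ∀ S ⊆ I, 0 < b S + a S * T := by
        intro S hS
        obtain ⟨h1, -⟩ := hab S hS
        have := Nat.mul_pos h1 hT0
        omega
      obtain ⟨S, hS, hpar⟩ := exists_par (n := fun S => b S + a S * T) hc0 hn hN hI hPr r hr
      rw [mem_biUnion]
      refine ⟨S, mem_powerset.mpr hS, mem_filter.mpr ⟨mem_Ioc.mpr ⟨hT0, hTX⟩, hS, ?_⟩⟩
      obtain ⟨h1, h2, h3, h4, h5, h6, h7⟩ := hab S hS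
      have hcS : 1 ≤ cv c t S := by unfold cv; omega
      have hnx : b S + a S * T ≤ x := by
        have h8 := hN S hS
        have h9 : b S + a S * T ≤ cv c t S * (b S + a S * T) := Nat.le_mul_of_pos_left _ hcS
        have h10 : 2 * Q * T ≤ 2 * Q * X := Nat.mul_le_mul_left _ hTX
        have h11 : 2 * Q * T = 2 * (Q * T) := by ring
        omega
      rw [hTg]
      refine mem_filter.mpr ⟨mem_Icc.mpr ⟨hn S hS, hnx⟩, fun l => ?_, hpar⟩
      have hfF : (a S, b S + h l) ∈ F := by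
        rw [hF, mem_image]
        exact ⟨(S, l), mem_product.mpr ⟨mem_powerset.mpr hS, mem_univ l⟩, rfl⟩
      have hq := hT1 _ hfF
      simp only at hq
      have hg0 : 0 < Nat.gcd (a S) (b S + h l) := Nat.gcd_pos_of_pos_left _ h1
      have hgd : Nat.gcd (a S) (b S + h l) ∣ a S * T + (b S + h l) :=
        (Dvd.dvd.mul_right (Nat.gcd_dvd_left _ _) T).add (Nat.gcd_dvd_right _ _)
      have heq : b S + a S * T + h l = Nat.gcd (a S) (b S + h l) *
          ((a S * T + (b S + h l)) / Nat.gcd (a S) (b S + h l)) := by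
        rw [Nat.mul_div_cancel' hgd]
        ring
      have hq0 : 0 < (a S * T + (b S + h l)) / Nat.gcd (a S) (b S + h l) := by
        have h8 := hn S hS
        by_contra h9
        have h10 : (a S * T + (b S + h l)) / Nat.gcd (a S) (b S + h l) = 0 := Nat.eq_zero_of_not_pos h9
        rw [h10, mul_zero] at heq
        omega
      have hqle : (a S * T + (b S + h l)) / Nat.gcd (a S) (b S + h l) ≤ b S + a S * T + h l := by
        refine (Nat.div_le_self _ _).trans (le_of_eq ?_)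
        ring
      constructor
      · intro p hp hpd
        rw [heq] at hpd
        rcases (hp.dvd_mul).mp hpd with h8 | h8
        · have h9 : p ∣ a S := h8.trans (Nat.gcd_dvd_left _ _)
          rcases h7 p hp h9 with h10 | h10
          · exfalso
            have h11 : p ∣ b S + h l := h8.trans (Nat.gcd_dvd_right _ _)
            have h12 := Nat.dvd_gcd h11 h10
            rw [(h3 l).gcd_eq_one, Nat.dvd_one] at h12
            exact hp.ne_one h12
          · exact h10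
        · have := hq p hp h8
          omega
      · rw [heq, ArithmeticFunction.cardFactors_mul hg0.ne' hq0.ne']
        have h8 : cardFactors (Nat.gcd (a S) (b S + h l)) ≤ cardFactors W + P2 * A :=
          (omega_le_of_dvd h1 (Nat.gcd_dvd_left _ _)).trans h6
        have h9 : cardFactors ((a S * T + (b S + h l)) / Nat.gcd (a S) (b S + h l)) < 8 * C1 := by
          refine om_lt hq0 hq (lt_of_le_of_lt hqle ?_)
          have h10 := hH l
          have h11 : b S + a S * T + h l ≤ x * x := by nlinarith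
          have h12 : x * x < (z + 1) ^ (4 * C1) * (z + 1) ^ (4 * C1) := Nat.mul_lt_mul'' hz2 hz2
          have h13 : (z + 1) ^ (4 * C1) * (z + 1) ^ (4 * C1) = (z + 1) ^ (8 * C1) := by rw [← pow_add]; congr 1; ring
          omega
        omega
    refine (Finset.card_le_card h1).trans ((Finset.card_biUnion_le).trans ?_)
    have h2 : ∀ S ∈ I.powerset, ((Finset.Ioc 0 X).filter (fun T => S ⊆ I ∧ b S + a S * T ∈ Tg)).card ≤ Tg.card := by
      intro S hS
      refine Finset.card_le_card_of_injOn (fun T => b S + a S * T) ?_ ?_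
      · intro T hT
        rw [mem_coe, mem_filter] at hT
        exact hT.2.2
      · intro T hT T' hT' hTT
        obtain ⟨h3, -⟩ := hab S (mem_powerset.mp hS)
        have h4 : a S * T = a S * T' := by
          have : b S + a S * T = b S + a S * T' := hTT
          omega
        exact Nat.eq_of_mul_eq_mul_left h3 h4
    refine (Finset.sum_le_sum h2).trans (le_of_eq ?_)
    rw [Finset.sum_const, Finset.card_powerset, smul_eq_mul, hP2]
  -- the real inequality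
  have hx3 : (20 : ℝ) ≤ x := by exact_mod_cast (by omega : 20 ≤ x)
  have hLx : 1 ≤ Real.log x := by
    rw [Real.le_log_iff_exp_le (by linarith)]
    have := Real.exp_one_lt_d9
    linarith
  have hzR : (2 : ℝ) ≤ z := by exact_mod_cast hz2'
  have hLz : Real.log z + 1 ≤ 2 * Real.log x := by
    have : Real.log z ≤ Real.log x := Real.log_le_log (by linarith) (by exact_mod_cast hzx)
    linarith
  have hLz0 : 0 < Real.log z := Real.log_pos (by linarith)
  have hYR : (1 : ℝ) ≤ Y := by exact_mod_cast hYpos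
  have hC1R : (1 : ℝ) ≤ C1 := by exact_mod_cast hC1
  rw [div_le_iff₀ (by positivity)]
  have e1 : (X : ℝ) ≤ P2 * Tg.card * (C1 * (Real.log z + 1) ^ C1) := by
    rw [← div_le_iff₀ (by positivity)]
    refine hcount.trans ?_
    exact_mod_cast hcard
  have e2 : (x : ℝ) ≤ 4 * Q * X := by
    have : x ≤ 4 * Q * X := by nlinarith
    exact_mod_cast this
  have e3 : (Q : ℝ) ≤ (Y : ℝ) ^ E0 := by exact_mod_cast hQ1
  have e4 : ((K1 : ℕ) : ℝ) ≤ Y := by exact_mod_cast (by omega : K1 ≤ Y)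
  have e5 : (Real.log z + 1) ^ C1 ≤ 2 ^ C1 * (Real.log x) ^ C1 := by
    rw [← mul_pow]
    exact pow_le_pow_left₀ (by linarith) hLz _
  have e6 : (K1 : ℝ) = 4 * P2 * C1 * 2 ^ C1 := by rw [hK1]; push_cast; ring
  have hT0 : (0 : ℝ) ≤ Tg.card := by positivity
  have hL0 : (0 : ℝ) ≤ Real.log x := by linarith
  calc (x : ℝ) ≤ 4 * Q * X := e2
    _ ≤ 4 * (Y : ℝ) ^ E0 * (P2 * Tg.card * (C1 * (2 ^ C1 * (Real.log x) ^ C1))) := by
        refine mul_le_mul (by linarith) (e1.trans ?_) (by positivity) (by positivity)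
        exact mul_le_mul_of_nonneg_left (mul_le_mul_of_nonneg_left e5 (by positivity)) (by positivity)
    _ = (Tg.card : ℝ) * ((Y : ℝ) ^ E0 * (K1 : ℝ) * (Real.log x) ^ C1) := by rw [e6]; ring
    _ ≤ (Tg.card : ℝ) * ((Y : ℝ) ^ E0 * Y * (Real.log x) ^ C1) := by
        refine mul_le_mul_of_nonneg_left ?_ hT0
        refine mul_le_mul_of_nonneg_right ?_ (by positivity)
        exact mul_le_mul_of_nonneg_left e4 (by positivity)
    _ ≤ (Tg.card : ℝ) * (Y * Real.log x) ^ C := by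
        refine mul_le_mul_of_nonneg_left ?_ hT0
        rw [mul_pow, ← pow_succ]
        exact mul_le_mul (pow_le_pow_right₀ hYR (by omega)) (pow_le_pow_right₀ hLx (by omega))
          (by positivity) (by positivity)

end Pool.Agent.Lib.OD
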